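import Mathlib

/-!
# Multinets on line arrangements in the complex projective plane

The points of the complex projective plane `P2` are the classes of the nonzero vectors of `ℂ ^ 3`.
A line `ℓ` is given by the class of the coefficient vector of its equation, so that lines are
also elements of `P2`; the point `p` is on the line `ℓ` when `p.rep ⬝ᵥ ℓ.rep = 0`.
-/

set_option autoImplicit false

open Finset Matrix

namespace Pool.Agent.H284_net

/-- The complex projective plane: its points and, by the coefficients of the equation, its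
lines. -/
abbrev P2 : Type := Projectivization ℂ (Fin 3 → ℂ)

/-- The point `p` is on the line `ℓ`. -/
def On (p ℓ : P2) : Prop := p.rep ⬝ᵥ ℓ.rep = 0

/-- The topology of the complex projective plane: the quotient topology from
`ℂ ^ 3` minus the origin. -/
noncomputable def topP2 : TopologicalSpace P2 :=
  TopologicalSpace.coinduced
    (fun v : {v : Fin 3 → ℂ // v ≠ 0} => Projectivization.mk ℂ v.1 v.2) inferInstance

open Classical in
/-- The classes `A i`, the multiplicities `m` and the base locus `X` form a `k`-multinet of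
degree `d`. -/
structure IsMultinet (k : ℕ) (A : Fin k → Finset P2) (m : P2 → ℕ) (X : Set P2) (d : ℕ) :
    Prop where
  /-- the classes are nonempty -/
  nonempty : ∀ i, (A i).Nonempty
  /-- the classes are disjoint -/
  disjoint : ∀ i j, i ≠ j → Disjoint (A i) (A j)
  /-- the multiplicities are positive -/
  pos : ∀ i, ∀ ℓ ∈ A i, 0 < m ℓ
  /-- the base locus consists of intersection points of lines of the arrangement -/
  baseSub : ∀ p ∈ X, ∃ i j, ∃ ℓ ∈ A i, ∃ ℓ' ∈ A j, ℓ ≠ ℓ' ∧ On p ℓ ∧ On p ℓ'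
  /-- (1) every class has total multiplicity `d` -/
  degree : ∀ i, ∑ ℓ ∈ A i, m ℓ = d
  /-- (2) lines of different classes meet in the base locus -/
  cross : ∀ i j, i ≠ j → ∀ ℓ ∈ A i, ∀ ℓ' ∈ A j, ∀ p, On p ℓ → On p ℓ' → p ∈ X
  /-- (3) all classes have the same multiplicity at a point of the base locus -/
  balance : ∀ p ∈ X, ∀ i j,
    ∑ ℓ ∈ (A i).filter (fun ℓ => On p ℓ), m ℓ = ∑ ℓ ∈ (A j).filter (fun ℓ => On p ℓ), m ℓ
  /-- (4) the union of the lines of a class without the base locus is connected -/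
  connected : ∀ i, @IsConnected P2 topP2 {p | (∃ ℓ ∈ A i, On p ℓ) ∧ p ∉ X}

/-- The multiplicity function is constant on the arrangement; after division by the constant all
multiplicities are one. -/
def IsReduced {k : ℕ} (A : Fin k → Finset P2) (m : P2 → ℕ) : Prop :=
  ∃ μ, 0 < μ ∧ ∀ i, ∀ ℓ ∈ A i, m ℓ = μ

/-- Every class consists of one line, and all lines pass through one point. -/
def IsLocal {k : ℕ} (A : Fin k → Finset P2) : Prop :=
  ∃ p, ∀ i, ∃ ℓ, A i = {ℓ} ∧ On p ℓ

/-- The coefficients of the twelve lines of the Hesse configuration of the cubic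
`x ^ 3 + y ^ 3 + z ^ 3 = 0`: the lines of class `3` are `x = 0`, `y = 0` and `z = 0`, those of
class `k = 0, 1, 2` are `x + ω ^ a y + ω ^ (k + 2 a) z = 0` for `a = 0, 1, 2`, where
`ω = exp (2 π i / 3)`. -/
noncomputable def hesseLine (k : Fin 4) (a : Fin 3) : Fin 3 → ℂ :=
  if (k : ℕ) = 3 then (Pi.single a (1 : ℂ) : Fin 3 → ℂ)
  else ![1, Complex.exp (2 * (Real.pi : ℂ) * Complex.I / 3) ^ (a : ℕ),
    Complex.exp (2 * (Real.pi : ℂ) * Complex.I / 3) ^ ((k : ℕ) + 2 * (a : ℕ))]

/-- The point with coordinates `v` is one of the nine inflection points of the cubic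
`x ^ 3 + y ^ 3 + z ^ 3 = 0`, whose Hessian is a multiple of `x y z`. -/
def IsFlex (v : Fin 3 → ℂ) : Prop := v 0 ^ 3 + v 1 ^ 3 + v 2 ^ 3 = 0 ∧ v 0 * v 1 * v 2 = 0

/-- Some projective transformation `T` carries the lines of every class `A i` onto the three lines
of the class `σ i` of the Hesse configuration, and the base locus `X` onto the nine inflection
points. -/
def IsHesse (A : Fin 4 → Finset P2) (X : Set P2) : Prop :=
  ∃ (T : (Fin 3 → ℂ) ≃ₗ[ℂ] (Fin 3 → ℂ)) (σ : Equiv.Perm (Fin 4)),
    (∀ i, ∀ ℓ : P2, ℓ ∈ A i ↔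
      ∃ a, ∀ x, x ⬝ᵥ ℓ.rep = 0 ↔ T x ⬝ᵥ hesseLine (σ i) a = 0) ∧
    ∀ p : P2, p ∈ X ↔ IsFlex (T p.rep)

end Pool.Agent.H284_net
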