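import Mathlib
import Pool.Agent.H284_beta.Vec

/-!
# Weighted radial isotropic position with unit vectors
-/

set_option autoImplicit false

open Matrix Finset
open scoped ComplexOrder
open Pool.Agent.H284_beta

namespace Pool.Agent.H284_net

variable {ι : Type*} [Fintype ι] [DecidableEq ι]

/-- Squared modulus of the hermitian product. -/
noncomputable def ov (x y : Fin 3 → ℂ) : ℝ := ‖star x ⬝ᵥ y‖ ^ 2

lemma ov_nonneg (x y : Fin 3 → ℂ) : 0 ≤ ov x y := sq_nonneg _

lemma ov_comm (x y : Fin 3 → ℂ) : ov x y = ov y x := by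
  unfold ov
  have h : star y ⬝ᵥ x = star (star x ⬝ᵥ y) := by rw [star_dotProduct]
  rw [h, norm_star]

lemma ov_self {x : Fin 3 → ℂ} (h : star x ⬝ᵥ x = 1) : ov x x = 1 := by
  unfold ov
  rw [h]
  simp

/-- Radial isotropic position with unit vectors. -/
theorem exists_unit_frame (f : ι → (Fin 3 → ℂ))
    (hspan : Submodule.span ℂ (Set.range f) = ⊤)
    (hf0 : ∀ i, f i ≠ 0) (w : ι → ℝ) (hpos : ∀ i, 0 < w i)
    (hsum : ∑ i, w i = 3)
    (hst : ∀ W : Submodule ℂ (Fin 3 → ℂ), W ≠ ⊤ → (∃ i, f i ∈ W) →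
      wt f w W < Module.finrank ℂ W) :
    ∃ (B : Matrix (Fin 3) (Fin 3) ℂ) (s : ι → ℝ), IsUnit B.det ∧ (∀ i, 0 < s i) ∧
      (∀ i, star ((s i : ℂ) • (B *ᵥ f i)) ⬝ᵥ ((s i : ℂ) • (B *ᵥ f i)) = 1) ∧
      ∑ i, (w i : ℂ) • vecMulVec ((s i : ℂ) • (B *ᵥ f i))
        (star ((s i : ℂ) • (B *ᵥ f i))) = 1 := by
  obtain ⟨ε, hε, hw, hst'⟩ := exists_eps f w hpos hst
  obtain ⟨y, hy, hyw⟩ := exists_isotropic (by norm_num) f hspan hf0 w ε hε hw
    (by rw [hsum]; norm_num) hst'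
  have hpd := gramSum_posDef f hspan y hy
  obtain ⟨B, hB⟩ := exists_factor hpd
  have hAu : IsUnit (gramSum f y).det := (isUnit_iff_isUnit_det _).1 hpd.isUnit
  have hBB : Bᴴ * B * gramSum f y = 1 := by rw [← hB, nonsing_inv_mul _ hAu]
  have hBdet : IsUnit B.det := by
    have h1 : IsUnit (Bᴴ * B).det := by
      rw [← hB]
      exact (isUnit_nonsing_inv_det_iff).2 hAu
    rw [det_mul] at h1
    exact isUnit_of_mul_isUnit_right h1
  have hBAB : B * gramSum f y * Bᴴ = 1 := by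
    have h1 : Bᴴ * (B * gramSum f y) = 1 := by rw [← Matrix.mul_assoc]; exact hBB
    exact mul_eq_one_comm.mp h1
  -- norm of `B f i`
  have hnorm : ∀ i, star (B *ᵥ f i) ⬝ᵥ (B *ᵥ f i) = ((w i / y i : ℝ) : ℂ) := by
    intro i
    have h1 : star (B *ᵥ f i) ⬝ᵥ (B *ᵥ f i) = star (f i) ⬝ᵥ ((gramSum f y)⁻¹ *ᵥ f i) := by
      rw [hB, ← mulVec_mulVec, dotProduct_mulVec (star (f i)), vecMul_conjTranspose, star_star]
    rw [h1, invForm_eq hpd]
    congr 1
    rw [← hyw i]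
    field_simp [(hy i).ne']
  refine ⟨B, fun i => Real.sqrt (y i / w i), hBdet, fun i => Real.sqrt_pos.mpr
    (div_pos (hy i) (hpos i)), fun i => ?_, ?_⟩
  · rw [star_smul, smul_dotProduct, dotProduct_smul, hnorm, Complex.star_def,
      Complex.conj_ofReal]
    simp only [smul_eq_mul]
    rw [← Complex.ofReal_mul, ← Complex.ofReal_mul, ← Complex.ofReal_one]
    congr 1
    rw [← mul_assoc, Real.mul_self_sqrt (div_pos (hy i) (hpos i)).le]
    have h1 := (hy i).ne'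
    have h2 := (hpos i).ne'
    field_simp
  · rw [← hBAB, gramSum, Matrix.mul_sum, Matrix.sum_mul]
    refine sum_congr rfl (fun i _ => ?_)
    rw [Matrix.mul_smul, Matrix.smul_mul, star_smul, Complex.star_def, Complex.conj_ofReal,
      smul_vecMulVec, vecMulVec_smul, smul_smul, smul_smul]
    have h3 : B * vecMulVec (f i) (star (f i)) * Bᴴ = vecMulVec (B *ᵥ f i) (star (B *ᵥ f i)) := by
      rw [mul_vecMulVec, vecMulVec_mul, star_mulVec]
    rw [h3]
    congr 1
    rw [← Complex.ofReal_mul, ← Complex.ofReal_mul]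
    congr 1
    rw [mul_assoc, Real.mul_self_sqrt (div_pos (hy i) (hpos i)).le]
    have h2 := (hpos i).ne'
    field_simp

end Pool.Agent.H284_net
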