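import Mathlib
import Pool.Agent.H284_net.Unit

/-!
# Hilbert–Schmidt norms of weighted sums of rank one projections
-/

set_option autoImplicit false

open Matrix Finset

namespace Pool.Agent.H284_net

variable {ι : Type*}

/-- The squared Hilbert–Schmidt norm. -/
noncomputable def hs (M : Matrix (Fin 3) (Fin 3) ℂ) : ℝ := ∑ a, ∑ b, ‖M a b‖ ^ 2

lemma hs_nonneg (M : Matrix (Fin 3) (Fin 3) ℂ) : 0 ≤ hs M :=
  sum_nonneg (fun _ _ => sum_nonneg (fun _ _ => sq_nonneg _))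

lemma eq_zero_of_hs {M : Matrix (Fin 3) (Fin 3) ℂ} (h : hs M = 0) : M = 0 := by
  ext a b
  have h1 := (sum_eq_zero_iff_of_nonneg (fun a _ => sum_nonneg (fun b _ => sq_nonneg _))).mp h a
    (mem_univ a)
  have h2 := (sum_eq_zero_iff_of_nonneg (fun b _ => sq_nonneg _)).mp h1 b (mem_univ b)
  simpa using h2

lemma hs_eq {M : Matrix (Fin 3) (Fin 3) ℂ} (hM : Mᴴ = M) : (hs M : ℂ) = trace (M * M) := by
  have h1 : trace (M * M) = trace (M * Mᴴ) := by rw [hM]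
  rw [h1, hs, trace]
  push_cast
  refine sum_congr rfl (fun a _ => ?_)
  rw [diag_apply, mul_apply]
  refine sum_congr rfl (fun b _ => ?_)
  rw [conjTranspose_apply, Complex.star_def, Complex.mul_conj']

/-- The rank one matrix `x x^*`. -/
noncomputable def pr (x : Fin 3 → ℂ) : Matrix (Fin 3) (Fin 3) ℂ := vecMulVec x (star x)

lemma pr_herm (x : Fin 3 → ℂ) : (pr x)ᴴ = pr x := by
  rw [pr, conjTranspose_vecMulVec, star_star]

lemma pr_mulVec (x v : Fin 3 → ℂ) : pr x *ᵥ v = (star x ⬝ᵥ v) • x := by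
  rw [pr, vecMulVec_mulVec]
  ext a
  simp [mul_comm]

lemma trace_pr (x : Fin 3 → ℂ) : trace (pr x) = star x ⬝ᵥ x := by
  rw [pr, trace_vecMulVec, dotProduct_comm]

lemma trace_pr_mul (x y : Fin 3 → ℂ) : trace (pr x * pr y) = (ov x y : ℂ) := by
  rw [pr, pr, vecMulVec_mul_vecMulVec, trace_vecMulVec, ov]
  have h : star x ⬝ᵥ y = star (star y ⬝ᵥ x) := by rw [star_dotProduct]
  rw [dotProduct_comm, smul_dotProduct, smul_eq_mul, h, norm_star, Complex.star_def,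
    Complex.conj_mul']
  push_cast
  rfl

/-- The weighted sum of rank one matrices. -/
noncomputable def ns (u : ι → Fin 3 → ℂ) (m : ι → ℝ) (s : Finset ι) :
    Matrix (Fin 3) (Fin 3) ℂ := ∑ i ∈ s, (m i : ℂ) • pr (u i)

lemma ns_herm (u : ι → Fin 3 → ℂ) (m : ι → ℝ) (s : Finset ι) : (ns u m s)ᴴ = ns u m s := by
  rw [ns, conjTranspose_sum]
  refine sum_congr rfl (fun i _ => ?_)
  rw [conjTranspose_smul, pr_herm, Complex.star_def, Complex.conj_ofReal]

lemma trace_ns (u : ι → Fin 3 → ℂ) (m : ι → ℝ) (s : Finset ι)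
    (hu : ∀ i ∈ s, star (u i) ⬝ᵥ u i = 1) : trace (ns u m s) = ((∑ i ∈ s, m i : ℝ) : ℂ) := by
  rw [ns, trace_sum]
  push_cast
  refine sum_congr rfl (fun i hi => ?_)
  rw [trace_smul, trace_pr, hu i hi, smul_eq_mul, mul_one]

lemma trace_ns_mul (u : ι → Fin 3 → ℂ) (m : ι → ℝ) (s : Finset ι) :
    trace (ns u m s * ns u m s) =
      ((∑ i ∈ s, ∑ j ∈ s, m i * m j * ov (u i) (u j) : ℝ) : ℂ) := by
  rw [ns, sum_mul_sum, trace_sum]
  push_cast
  refine sum_congr rfl (fun i _ => ?_)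
  rw [trace_sum]
  refine sum_congr rfl (fun j _ => ?_)
  rw [smul_mul_smul_comm, trace_smul, trace_pr_mul, smul_eq_mul]

lemma hs_sub_one (u : ι → Fin 3 → ℂ) (m : ι → ℝ) (s : Finset ι)
    (hu : ∀ i ∈ s, star (u i) ⬝ᵥ u i = 1) (κ : ℝ) :
    hs (ns u m s - (κ : ℂ) • 1) =
      ∑ i ∈ s, ∑ j ∈ s, m i * m j * ov (u i) (u j) - 2 * κ * ∑ i ∈ s, m i + 3 * κ ^ 2 := by
  have hM : (ns u m s - (κ : ℂ) • 1)ᴴ = ns u m s - (κ : ℂ) • 1 := by
    rw [conjTranspose_sub, ns_herm, conjTranspose_smul, conjTranspose_one, Complex.star_def,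
      Complex.conj_ofReal]
  have h1 := hs_eq hM
  have h2 : (ns u m s - (κ : ℂ) • 1) * (ns u m s - (κ : ℂ) • 1) =
      ns u m s * ns u m s - (2 * κ : ℂ) • ns u m s + ((κ : ℂ) ^ 2) • 1 := by
    rw [sub_mul, mul_sub, mul_sub, smul_mul_assoc, mul_smul_comm, one_mul, mul_one, smul_mul_assoc,
      one_mul]
    module
  rw [h2, trace_add, trace_sub, trace_smul, trace_smul, trace_one, trace_ns u m s hu,
    trace_ns_mul] at h1
  simp only [Fintype.card_fin, smul_eq_mul] at h1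
  have h3 : ((hs (ns u m s - (κ : ℂ) • 1) : ℝ) : ℂ) =
      ((∑ i ∈ s, ∑ j ∈ s, m i * m j * ov (u i) (u j) - 2 * κ * ∑ i ∈ s, m i + 3 * κ ^ 2 : ℝ) :
        ℂ) := by
    rw [h1]
    push_cast
    ring
  exact_mod_cast h3

lemma hs_sub_plane (u : ι → Fin 3 → ℂ) (m : ι → ℝ) (s : Finset ι)
    (hu : ∀ i ∈ s, star (u i) ⬝ᵥ u i = 1) (κ : ℝ) (p : Fin 3 → ℂ) (hp : star p ⬝ᵥ p = 1)
    (hpu : ∀ i ∈ s, star (u i) ⬝ᵥ p = 0) :
    hs (ns u m s - (κ : ℂ) • (1 - pr p)) =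
      ∑ i ∈ s, ∑ j ∈ s, m i * m j * ov (u i) (u j) - 2 * κ * ∑ i ∈ s, m i + 2 * κ ^ 2 := by
  have hM : (ns u m s - (κ : ℂ) • (1 - pr p))ᴴ = ns u m s - (κ : ℂ) • (1 - pr p) := by
    rw [conjTranspose_sub, ns_herm, conjTranspose_smul, conjTranspose_sub, conjTranspose_one,
      pr_herm, Complex.star_def, Complex.conj_ofReal]
  have h1 := hs_eq hM
  have h4 : ns u m s * pr p = 0 := by
    rw [ns, sum_mul]
    refine sum_eq_zero (fun i hi => ?_)
    rw [smul_mul_assoc, pr, pr, vecMulVec_mul_vecMulVec, hpu i hi]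
    simp
  have h5 : pr p * ns u m s = 0 := by
    have := congrArg conjTranspose h4
    rwa [conjTranspose_mul, ns_herm, pr_herm, conjTranspose_zero] at this
  have h6 : pr p * pr p = pr p := by
    rw [pr, vecMulVec_mul_vecMulVec, hp]
    simp
  have h2 : (ns u m s - (κ : ℂ) • (1 - pr p)) * (ns u m s - (κ : ℂ) • (1 - pr p)) =
      ns u m s * ns u m s - (2 * κ : ℂ) • ns u m s + ((κ : ℂ) ^ 2) • (1 - pr p) := by
    rw [sub_mul, mul_sub, mul_sub, smul_mul_assoc, mul_smul_comm, mul_sub, sub_mul, one_mul,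
      mul_one, smul_mul_assoc, sub_mul, one_mul, h4, h5, mul_smul_comm, mul_sub, mul_one, h6]
    module
  rw [h2, trace_add, trace_sub, trace_smul, trace_smul, trace_sub, trace_one, trace_pr, hp,
    trace_ns u m s hu, trace_ns_mul] at h1
  simp only [Fintype.card_fin, smul_eq_mul] at h1
  have h3 : ((hs (ns u m s - (κ : ℂ) • (1 - pr p)) : ℝ) : ℂ) =
      ((∑ i ∈ s, ∑ j ∈ s, m i * m j * ov (u i) (u j) - 2 * κ * ∑ i ∈ s, m i + 2 * κ ^ 2 : ℝ) :
        ℂ) := by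
    rw [h1]
    push_cast
    ring
  exact_mod_cast h3

end Pool.Agent.H284_net
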