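import Mathlib
import Pool.Agent.H284_net.HS

/-!
# Weighted 4-multinets in terms of normal vectors: counting
-/

set_option autoImplicit false

open Finset
open Pool.Agent.H284_beta

namespace Pool.Agent.H284_net

variable {ι : Type*} [Fintype ι] [DecidableEq ι]

/-- A non-local `4`-multinet given by the normal vectors `f` of its lines, the class map `c`, the
multiplicities `m` and the degree `d`. -/
structure MNet (f : ι → (Fin 3 → ℂ)) (c : ι → Fin 4) (m : ι → ℕ) (d : ℕ) : Prop where
  indep : ∀ i j, i ≠ j → LinearIndependent ℂ ![f i, f j]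
  pos : ∀ i, 0 < m i
  total : ∀ v, ∑ i ∈ univ.filter (fun i => c i = v), m i = d
  base : ∀ i j, c i ≠ c j → ∀ v w,
    ∑ k ∈ (vecLine f i j).filter (fun k => c k = v), m k =
      ∑ k ∈ (vecLine f i j).filter (fun k => c k = w), m k
  span : Submodule.span ℂ (Set.range f) = ⊤

/-- The base flats. -/
noncomputable def flats (f : ι → (Fin 3 → ℂ)) (c : ι → Fin 4) : Finset (Finset ι) :=
  (lines (vecLine f)).filter (fun X => ∃ i ∈ X, ∃ j ∈ X, c i ≠ c j)

variable {f : ι → (Fin 3 → ℂ)} {c : ι → Fin 4} {m : ι → ℕ} {d : ℕ}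

lemma mem_flats {X : Finset ι} :
    X ∈ flats f c ↔ X ∈ lines (vecLine f) ∧ ∃ i ∈ X, ∃ j ∈ X, c i ≠ c j := by
  rw [flats, mem_filter]

lemma ne_of_class {i j : ι} (h : c i ≠ c j) : i ≠ j := fun hij => h (by rw [hij])

lemma MNet.linSp (h : MNet f c m d) : IsLinSp (vecLine f) := isLinSp_vecLine f h.indep

lemma MNet.line_mem_flats (h : MNet f c m d) {i j : ι} (hij : c i ≠ c j) :
    vecLine f i j ∈ flats f c :=
  mem_flats.mpr ⟨line_mem_lines (ne_of_class hij), i, h.linSp.left_mem i j (ne_of_class hij), j,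
    h.linSp.right_mem i j (ne_of_class hij), hij⟩

lemma MNet.eq_of_mem_flats (h : MNet f c m d) {X : Finset ι} (hX : X ∈ flats f c) {i j : ι}
    (hij : i ≠ j) (hi : i ∈ X) (hj : j ∈ X) : vecLine f i j = X :=
  h.linSp.eq_line (mem_flats.mp hX).1 hij hi hj

/-- The common class multiplicity of a base flat. -/
noncomputable def mult (c : ι → Fin 4) (m : ι → ℕ) (X : Finset ι) : ℕ :=
  ∑ k ∈ X.filter (fun k => c k = 0), m k

lemma MNet.sum_class (h : MNet f c m d) {X : Finset ι} (hX : X ∈ flats f c) (v : Fin 4) :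
    ∑ k ∈ X.filter (fun k => c k = v), m k = mult c m X := by
  obtain ⟨_, i, hi, j, hj, hij⟩ := mem_flats.mp hX
  have := h.eq_of_mem_flats hX (ne_of_class hij) hi hj
  rw [← this]
  exact h.base i j hij v 0

lemma sum_eq_sum_class {M : Type*} [AddCommMonoid M] (c : ι → Fin 4) (X : Finset ι) (F : ι → M) :
    ∑ v, ∑ k ∈ X.filter (fun k => c k = v), F k = ∑ k ∈ X, F k :=
  sum_fiberwise X c F

lemma MNet.sum_flat (h : MNet f c m d) {X : Finset ι} (hX : X ∈ flats f c) :
    ∑ k ∈ X, m k = 4 * mult c m X := by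
  rw [← sum_eq_sum_class c X, sum_congr rfl (fun v _ => h.sum_class hX v)]
  simp

lemma MNet.d_pos (h : MNet f c m d) : 0 < d := by
  have h1 : Nonempty ι := by
    by_contra hcon
    rw [not_nonempty_iff] at hcon
    have h2 := h.span
    rw [Set.range_eq_empty, Submodule.span_empty] at h2
    have h3 := congrArg (fun W : Submodule ℂ (Fin 3 → ℂ) => Module.finrank ℂ W) h2
    simp at h3
  obtain ⟨i⟩ := h1
  rw [← h.total (c i)]
  exact lt_of_lt_of_le (h.pos i)
    (single_le_sum (f := m) (fun _ _ => Nat.zero_le _) (mem_filter.mpr ⟨mem_univ i, rfl⟩))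

lemma MNet.le_d (h : MNet f c m d) (i : ι) : m i ≤ d := by
  rw [← h.total (c i)]
  exact single_le_sum (f := m) (fun _ _ => Nat.zero_le _) (mem_filter.mpr ⟨mem_univ i, rfl⟩)

/-- There is a line outside each flat. -/
lemma MNet.exists_not_mem (h : MNet f c m d) {X : Finset ι} (hX : X ∈ flats f c) :
    ∃ i, i ∉ X := by
  by_contra hcon
  push Not at hcon
  obtain ⟨hl, _⟩ := mem_flats.mp hX
  obtain ⟨i, j, hij, hXeq⟩ := mem_lines.mp hl
  have h1 : Submodule.span ℂ (Set.range f) ≤ Submodule.span ℂ ({f i, f j} : Set (Fin 3 → ℂ)) := by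
    rw [Submodule.span_le]
    rintro _ ⟨k, rfl⟩
    have := hcon k
    rw [← hXeq] at this
    exact mem_vecLine.mp this
  have h2 := Submodule.finrank_mono h1
  rw [finrank_span_pair (h.indep i j hij), h.span, finrank_top, Module.finrank_fin_fun] at h2
  omega

/-- The base multiplicities are at most a third of the degree. -/
lemma MNet.three_mult_le (h : MNet f c m d) {X : Finset ι} (hX : X ∈ flats f c) :
    3 * mult c m X ≤ d := by
  obtain ⟨i, hi⟩ := h.exists_not_mem hX
  obtain ⟨w, hw⟩ : ∃ w : Fin 4, w ≠ c i := exists_ne (c i)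
  set S := X.filter (fun j => c j ≠ c i) with hS
  have hSX : ∀ j ∈ S, j ∈ X ∧ c j ≠ c i := fun j hj => mem_filter.mp hj
  have hij : ∀ j ∈ S, i ≠ j := fun j hj => ne_of_class (hSX j hj).2.symm
  -- the sum over `S`
  have h1 : ∑ j ∈ S, m j = 3 * mult c m X := by
    have h2 : ∑ j ∈ X.filter (fun j => c j = c i), m j + ∑ j ∈ S, m j = ∑ j ∈ X, m j :=
      sum_filter_add_sum_filter_not X (fun j => c j = c i) m
    rw [h.sum_class hX, h.sum_flat hX] at h2
    omega
  set K : ι → Finset ι := fun j => (vecLine f i j).filter (fun k => c k = w) with hK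
  have h2 : ∀ j ∈ S, m j ≤ ∑ k ∈ K j, m k := by
    intro j hj
    have h3 : c i ≠ c j := (hSX j hj).2.symm
    rw [hK]
    simp only
    rw [h.base i j h3 w (c j)]
    exact single_le_sum (f := m) (fun _ _ => Nat.zero_le _)
      (mem_filter.mpr ⟨h.linSp.right_mem i j (hij j hj), rfl⟩)
  have hdisj : Set.PairwiseDisjoint (S : Set ι) K := by
    intro j hj j' hj' hne
    rw [Function.onFun, Finset.disjoint_left]
    intro k hk hk'
    simp only [hK, mem_filter] at hk hk'
    have hki : i ≠ k := by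
      rintro rfl
      exact hw hk.2.symm
    have hj0 : j ∈ S := hj
    have hj'0 : j' ∈ S := hj'
    have e1 := h.linSp.eq_of_mem i j i k (hij j hj0) hki
      (h.linSp.left_mem i j (hij j hj0)) hk.1
    have e2 := h.linSp.eq_of_mem i j' i k (hij j' hj'0) hki
      (h.linSp.left_mem i j' (hij j' hj'0)) hk'.1
    have m1 : j ∈ vecLine f i k := by rw [e1]; exact h.linSp.right_mem i j (hij j hj0)
    have m2 : j' ∈ vecLine f i k := by rw [e2]; exact h.linSp.right_mem i j' (hij j' hj'0)
    have e3 := h.linSp.eq_of_mem i k j j' hki hne m1 m2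
    have e4 := h.eq_of_mem_flats hX hne (hSX j hj0).1 (hSX j' hj'0).1
    apply hi
    rw [← e4, e3]
    exact h.linSp.left_mem i k hki
  calc 3 * mult c m X = ∑ j ∈ S, m j := h1.symm
    _ ≤ ∑ j ∈ S, ∑ k ∈ K j, m k := sum_le_sum h2
    _ = ∑ k ∈ S.biUnion K, m k := (sum_biUnion hdisj).symm
    _ ≤ ∑ k ∈ univ.filter (fun k => c k = w), m k := by
        apply sum_le_sum_of_subset
        intro k hk
        obtain ⟨j, _, hk⟩ := mem_biUnion.mp hk
        exact mem_filter.mpr ⟨mem_univ k, (mem_filter.mp hk).2⟩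
    _ = d := h.total w

/-- Double counting over the base flats of a function on pairs from different classes. -/
lemma MNet.sum_pairs (h : MNet f c m d) (F : ι → ι → ℝ) (hF : ∀ i j, c i = c j → F i j = 0) :
    ∑ X ∈ flats f c, ∑ i ∈ X, ∑ j ∈ X, F i j = ∑ i, ∑ j, F i j := by
  have h1 : ∀ X ∈ flats f c, ∑ i ∈ X, ∑ j ∈ X, F i j =
      ∑ i, ∑ j, (if i ∈ X ∧ j ∈ X then F i j else 0) := by
    intro X _
    rw [← sum_subset (subset_univ X)]
    · refine sum_congr rfl (fun i hi => ?_)
      rw [← sum_subset (subset_univ X)]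
      · exact sum_congr rfl (fun j hj => by simp [hi, hj])
      · intro j _ hj
        simp [hj]
    · intro i _ hi
      simp [hi]
  rw [sum_congr rfl h1, sum_comm]
  refine sum_congr rfl (fun i _ => ?_)
  rw [sum_comm]
  refine sum_congr rfl (fun j _ => ?_)
  rw [← sum_filter, sum_const, nsmul_eq_mul]
  by_cases hij : c i = c j
  · rw [hF i j hij, mul_zero]
  · have h2 : (flats f c).filter (fun X => i ∈ X ∧ j ∈ X) = {vecLine f i j} := by
      ext X
      simp only [mem_filter, mem_singleton]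
      constructor
      · rintro ⟨hX, hi, hj⟩
        exact (h.eq_of_mem_flats hX (ne_of_class hij) hi hj).symm
      · rintro rfl
        exact ⟨h.line_mem_flats hij, h.linSp.left_mem i j (ne_of_class hij),
          h.linSp.right_mem i j (ne_of_class hij)⟩
    rw [h2]
    simp

end Pool.Agent.H284_net
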