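import Mathlib
import Pool.Agent.H284_net.Multi

/-!
# The equality case for 4-multinets in isotropic position
-/

set_option autoImplicit false

open Matrix Finset
open Pool.Agent.H284_beta

namespace Pool.Agent.H284_net

variable {ι : Type*} [Fintype ι] [DecidableEq ι]
variable {f : ι → (Fin 3 → ℂ)} {c : ι → Fin 4} {m : ι → ℕ} {d : ℕ}

lemma sum_same_class (c : ι → Fin 4) (X : Finset ι) (G : ι → ι → ℝ) :
    ∑ i ∈ X, ∑ j ∈ X, (if c i = c j then G i j else 0) =
      ∑ v, ∑ i ∈ X.filter (fun k => c k = v), ∑ j ∈ X.filter (fun k => c k = v), G i j := by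
  rw [← sum_eq_sum_class c X]
  refine sum_congr rfl (fun v _ => sum_congr rfl (fun i hi => ?_))
  rw [← sum_filter]
  have h1 : X.filter (fun j => c i = c j) = X.filter (fun k => c k = v) := by
    have h2 := (mem_filter.mp hi).2
    ext j
    simp only [mem_filter, h2]
    tauto
  rw [h1]

lemma MNet.wt_lt (h : MNet f c m d) (W : Submodule ℂ (Fin 3 → ℂ)) (hW : W ≠ ⊤)
    (hi : ∃ i, f i ∈ W) :
    wt f (fun i => 3 * (m i : ℝ) / (4 * d)) W < Module.finrank ℂ W := by
  classical
  obtain ⟨i, hi⟩ := hi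
  have hd : (0 : ℝ) < d := by exact_mod_cast h.d_pos
  have hf0 : ∀ i, f i ≠ 0 := by
    intro i hi0
    obtain ⟨j, hj⟩ : ∃ j, c j ≠ c i := by
      by_contra hcon
      push Not at hcon
      obtain ⟨w, hw⟩ : ∃ w : Fin 4, w ≠ c i := exists_ne (c i)
      have h1 := h.total w
      rw [sum_eq_zero] at h1
      · have := h.d_pos
        omega
      · intro k hk
        exact absurd ((mem_filter.mp hk).2.symm.trans (hcon k)) hw
    exact (h.indep i j (ne_of_class hj).symm).ne_zero 0 hi0
  have h1 : Module.finrank ℂ W < 3 := by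
    have := Submodule.finrank_lt hW
    rwa [Module.finrank_fin_fun] at this
  have h2 : 0 < Module.finrank ℂ W := by
    rw [Module.finrank_pos_iff]
    exact ⟨⟨⟨f i, hi⟩, 0, fun h => hf0 i (congrArg Subtype.val h)⟩⟩
  have hwt : wt f (fun i => 3 * (m i : ℝ) / (4 * d)) W =
      3 * (∑ i ∈ univ.filter (fun i => f i ∈ W), (m i : ℝ)) / (4 * d) := by
    unfold wt
    rw [mul_sum, sum_div]
  have hpair : ∀ j, f j ∈ W → i ≠ j → Submodule.span ℂ ({f i, f j} : Set (Fin 3 → ℂ)) ≤ W := by
    intro j hj _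
    rw [Submodule.span_le]
    intro z hz
    simp only [Set.mem_insert_iff, Set.mem_singleton_iff] at hz
    rcases hz with rfl | rfl
    · exact hi
    · exact hj
  rw [hwt]
  -- the sum over one class
  have hone : (∀ j, f j ∈ W → c j = c i) →
      ∑ i ∈ univ.filter (fun i => f i ∈ W), (m i : ℝ) ≤ d := by
    intro hc
    have h3 : ∑ i ∈ univ.filter (fun i => f i ∈ W), m i ≤ d := by
      rw [← h.total (c i)]
      apply sum_le_sum_of_subset
      intro k hk
      exact mem_filter.mpr ⟨mem_univ k, hc k (mem_filter.mp hk).2⟩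
    exact_mod_cast h3
  have hfin : (1 : ℝ) ≤ Module.finrank ℂ W := by exact_mod_cast h2
  by_cases hc : ∀ j, f j ∈ W → c j = c i
  · have h3 := hone hc
    have h4 : 3 * (∑ i ∈ univ.filter (fun i => f i ∈ W), (m i : ℝ)) / (4 * d) < 1 := by
      rw [div_lt_one (by positivity)]
      linarith
    linarith
  · push Not at hc
    obtain ⟨j, hj, hji⟩ := hc
    have hij : i ≠ j := ne_of_class hji.symm
    have h3 := Submodule.finrank_mono (hpair j hj hij)
    rw [finrank_span_pair (h.indep i j hij)] at h3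
    have h4 : Module.finrank ℂ W = 2 := by omega
    have h5 : Submodule.span ℂ ({f i, f j} : Set (Fin 3 → ℂ)) = W := by
      apply Submodule.eq_of_le_of_finrank_eq (hpair j hj hij)
      rw [finrank_span_pair (h.indep i j hij), h4]
    have h6 : univ.filter (fun i => f i ∈ W) = vecLine f i j := by
      ext k
      simp only [mem_filter, mem_univ, true_and, mem_vecLine, h5]
    have hX := h.line_mem_flats hji.symm
    have h7 : ∑ k ∈ vecLine f i j, (m k : ℝ) = 4 * mult c m (vecLine f i j) := by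
      exact_mod_cast h.sum_flat hX
    have h8 : 3 * (mult c m (vecLine f i j) : ℝ) ≤ d := by exact_mod_cast h.three_mult_le hX
    rw [h6, h7, h4]
    rw [div_lt_iff₀ (by positivity)]
    push_cast
    nlinarith

lemma MNet.ne_zero (h : MNet f c m d) (i : ι) : f i ≠ 0 := by
  intro hi0
  obtain ⟨w, hw⟩ : ∃ w : Fin 4, w ≠ c i := exists_ne (c i)
  obtain ⟨j, hj⟩ : ∃ j, c j ≠ c i := by
    by_contra hcon
    push Not at hcon
    have h1 := h.total w
    rw [sum_eq_zero] at h1
    · have := h.d_pos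
      omega
    · intro k hk
      exact absurd ((mem_filter.mp hk).2.symm.trans (hcon k)) hw
  exact (h.indep i j (ne_of_class hj).symm).ne_zero 0 hi0

lemma MNet.sum_all (h : MNet f c m d) : ∑ i, (m i : ℝ) = 4 * d := by
  have h1 : ∑ i, m i = 4 * d := by
    rw [← sum_eq_sum_class c univ, sum_congr rfl (fun v _ => h.total v)]
    simp
  exact_mod_cast h1

lemma star_dot_self (q : Fin 3 → ℂ) : star q ⬝ᵥ q = ((∑ a, ‖q a‖ ^ 2 : ℝ) : ℂ) := by
  rw [dotProduct]
  push_cast
  refine sum_congr rfl (fun a _ => ?_)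
  rw [Pi.star_apply, Complex.star_def, Complex.conj_mul']

/-- A unit vector orthogonal to two given vectors. -/
lemma exists_orth (x y : Fin 3 → ℂ) (hxy : LinearIndependent ℂ ![x, y]) :
    ∃ p : Fin 3 → ℂ, star p ⬝ᵥ p = 1 ∧ star x ⬝ᵥ p = 0 ∧ star y ⬝ᵥ p = 0 := by
  set q : Fin 3 → ℂ := crossProduct (star x) (star y) with hq
  have hq1 : star x ⬝ᵥ q = 0 := dot_self_cross (star x) (star y)
  have hq2 : star y ⬝ᵥ q = 0 := dot_cross_self (star x) (star y)
  have hq0 : q ≠ 0 := by
    rw [hq, crossProduct_ne_zero_iff_linearIndependent]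
    rw [LinearIndependent.pair_iff] at hxy ⊢
    intro a b hab
    have h1 := congrArg star hab
    rw [star_add, star_smul, star_smul, star_star, star_star, star_zero] at h1
    obtain ⟨h2, h3⟩ := hxy _ _ h1
    exact ⟨by simpa using h2, by simpa using h3⟩
  have hpos : 0 < (star q ⬝ᵥ q).re := by
    rw [star_dot_self, Complex.ofReal_re]
    obtain ⟨a, ha⟩ := Function.ne_iff.mp hq0
    refine lt_of_lt_of_le ?_ (single_le_sum (f := fun a => ‖q a‖ ^ 2) (fun _ _ => sq_nonneg _)
      (mem_univ a))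
    have : 0 < ‖q a‖ := norm_pos_iff.mpr ha
    positivity
  have him : star q ⬝ᵥ q = (((star q ⬝ᵥ q).re : ℝ) : ℂ) := by
    rw [star_dot_self, Complex.ofReal_re]
  set r : ℝ := (star q ⬝ᵥ q).re with hr
  refine ⟨(((Real.sqrt r)⁻¹ : ℝ) : ℂ) • q, ?_, ?_, ?_⟩
  · rw [star_smul, smul_dotProduct, dotProduct_smul, him, Complex.star_def, Complex.conj_ofReal]
    simp only [smul_eq_mul]
    rw [← Complex.ofReal_mul, ← Complex.ofReal_mul, ← Complex.ofReal_one]
    congr 1
    rw [← mul_assoc, ← mul_inv, Real.mul_self_sqrt hpos.le]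
    exact inv_mul_cancel₀ hpos.ne'
  · rw [dotProduct_smul, hq1, smul_zero]
  · rw [dotProduct_smul, hq2, smul_zero]

end Pool.Agent.H284_net
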