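import Mathlib
import Pool.Agent.H284_net.Core

/-!
# The equality case for 4-multinets in isotropic position: the identity
-/

set_option autoImplicit false

open Matrix Finset
open Pool.Agent.H284_beta

namespace Pool.Agent.H284_net

variable {ι : Type*} [Fintype ι] [DecidableEq ι]
variable {f : ι → (Fin 3 → ℂ)} {c : ι → Fin 4} {m : ι → ℕ} {d : ℕ}

lemma ov_le_one {x y : Fin 3 → ℂ} (hx : star x ⬝ᵥ x = 1) (hy : star y ⬝ᵥ y = 1) :
    ov x y ≤ 1 := by
  have h1 := norm_inner_le_norm (𝕜 := ℂ) (WithLp.toLp 2 x : EuclideanSpace ℂ (Fin 3))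
    (WithLp.toLp 2 y)
  have h2 : ∀ z : Fin 3 → ℂ, star z ⬝ᵥ z = 1 →
      ‖(WithLp.toLp 2 z : EuclideanSpace ℂ (Fin 3))‖ = 1 := by
    intro z hz
    rw [star_dot_self] at hz
    rw [EuclideanSpace.norm_eq]
    have h3 : ∑ a, ‖z a‖ ^ 2 = 1 := by exact_mod_cast hz
    simp [h3]
  rw [h2 x hx, h2 y hy, EuclideanSpace.inner_eq_star_dotProduct] at h1
  simp only [mul_one] at h1
  have h3 : ‖star x ⬝ᵥ y‖ ≤ 1 := by
    rw [dotProduct_comm] at h1
    exact h1
  unfold ov
  have := norm_nonneg (star x ⬝ᵥ y)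
  nlinarith

/-- Equality in Cauchy–Schwarz. -/
lemma eq_smul_of_ov_eq_one {x y : Fin 3 → ℂ} (hx : star x ⬝ᵥ x = 1) (hy : star y ⬝ᵥ y = 1)
    (h : ov x y = 1) : y = (star x ⬝ᵥ y) • x := by
  have h1 : star (y - (star x ⬝ᵥ y) • x) ⬝ᵥ (y - (star x ⬝ᵥ y) • x) = 0 := by
    have h2 : star y ⬝ᵥ x = star (star x ⬝ᵥ y) := by rw [star_dotProduct]
    rw [star_sub, star_smul, sub_dotProduct, dotProduct_sub, dotProduct_sub, smul_dotProduct,
      dotProduct_smul, smul_dotProduct, dotProduct_smul, hx, hy, h2]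
    simp only [smul_eq_mul, mul_one]
    have h3 : (star x ⬝ᵥ y) * star (star x ⬝ᵥ y) = 1 := by
      rw [Complex.star_def, Complex.mul_conj', ← Complex.ofReal_pow]
      unfold ov at h
      rw [h]
      simp
    have h4 : star (star x ⬝ᵥ y) * (star x ⬝ᵥ y) = 1 := by rw [mul_comm]; exact h3
    rw [h3, h4]
    ring
  rw [star_dot_self] at h1
  have h2 : ∑ a, ‖(y - (star x ⬝ᵥ y) • x) a‖ ^ 2 = 0 := by exact_mod_cast h1
  have h3 : y - (star x ⬝ᵥ y) • x = 0 := by
    ext a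
    have := (sum_eq_zero_iff_of_nonneg (fun a _ => sq_nonneg _)).mp h2 a (mem_univ a)
    simpa using this
  exact sub_eq_zero.mp h3

lemma pair_map {B : Matrix (Fin 3) (Fin 3) ℂ} (hB : IsUnit B.det) {x y : Fin 3 → ℂ}
    (hxy : LinearIndependent ℂ ![x, y]) : LinearIndependent ℂ ![B *ᵥ x, B *ᵥ y] := by
  have hBinj : Function.Injective (B.mulVecLin) := by
    rw [Matrix.coe_mulVecLin]
    exact Matrix.mulVec_injective_of_isUnit ((isUnit_iff_isUnit_det B).2 hB)
  have h1 := hxy.map' B.mulVecLin (LinearMap.ker_eq_bot.mpr hBinj)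
  have h2 : ⇑B.mulVecLin ∘ ![x, y] = ![B *ᵥ x, B *ᵥ y] := by
    funext i
    fin_cases i <;> rfl
  rwa [h2] at h1

lemma pair_smul {x y : Fin 3 → ℂ} (hxy : LinearIndependent ℂ ![x, y]) {a b : ℂ} (ha : a ≠ 0)
    (hb : b ≠ 0) : LinearIndependent ℂ ![a • x, b • y] := by
  rw [LinearIndependent.pair_iff] at hxy ⊢
  intro s t hst
  have h2 := hxy (s * a) (t * b) (by rw [mul_smul, mul_smul]; exact hst)
  exact ⟨(mul_eq_zero.mp h2.1).resolve_right ha, (mul_eq_zero.mp h2.2).resolve_right hb⟩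

/-- The core statement: in isotropic position equality holds everywhere. -/
theorem MNet.core (h : MNet f c m d) :
    ∃ (B : Matrix (Fin 3) (Fin 3) ℂ) (s : ι → ℝ), IsUnit B.det ∧ (∀ i, 0 < s i) ∧
      (∀ i, star ((s i : ℂ) • (B *ᵥ f i)) ⬝ᵥ ((s i : ℂ) • (B *ᵥ f i)) = 1) ∧
      (∀ v, ns (fun i => (s i : ℂ) • (B *ᵥ f i)) (fun i => (m i : ℝ))
        (univ.filter (fun i => c i = v)) = (((d : ℝ) / 3 : ℝ) : ℂ) • 1) ∧
      (∀ X ∈ flats f c, ∃ p : Fin 3 → ℂ, star p ⬝ᵥ p = 1 ∧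
        (∀ i ∈ X, star ((s i : ℂ) • (B *ᵥ f i)) ⬝ᵥ p = 0) ∧
        ns (fun i => (s i : ℂ) • (B *ᵥ f i)) (fun i => (m i : ℝ)) X =
          ((2 * mult c m X : ℝ) : ℂ) • (1 - pr p)) ∧
      (∀ X ∈ flats f c, ∀ i ∈ X, ∀ j ∈ X, c i = c j → i = j) := by
  classical
  have hd : (0 : ℝ) < d := by exact_mod_cast h.d_pos
  obtain ⟨B, s, hB, hs0, hu, hiso⟩ := exists_unit_frame f h.span h.ne_zero
    (fun i => 3 * (m i : ℝ) / (4 * d))
    (fun i => by
      have : (0 : ℝ) < m i := by exact_mod_cast h.pos i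
      positivity)
    (by
      rw [← sum_div, ← mul_sum, h.sum_all]
      field_simp)
    h.wt_lt
  set u : ι → Fin 3 → ℂ := fun i => (s i : ℂ) • (B *ᵥ f i) with hudef
  set M : ι → ℝ := fun i => (m i : ℝ) with hM
  have hMpos : ∀ i, 0 < M i := fun i => by
    simp only [hM]
    exact_mod_cast h.pos i
  -- the total frame operator
  have hall : ns u M univ = ((4 * d / 3 : ℝ) : ℂ) • 1 := by
    rw [← hiso, ns, smul_sum]
    refine sum_congr rfl (fun i _ => ?_)
    rw [smul_smul, pr]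
    congr 1
    rw [← Complex.ofReal_mul]
    congr 1
    simp only [hM]
    field_simp
  have htot : ∑ i, ∑ j, M i * M j * ov (u i) (u j) = 16 * (d : ℝ) ^ 2 / 3 := by
    have h1 := trace_ns_mul u M univ
    rw [hall, smul_mul_smul_comm, trace_smul, mul_one, trace_one] at h1
    simp only [Fintype.card_fin, smul_eq_mul] at h1
    have h2 : (((4 * d / 3 : ℝ) : ℂ)) * ((4 * d / 3 : ℝ) : ℂ) * ((3 : ℕ) : ℂ) =
        ((16 * (d : ℝ) ^ 2 / 3 : ℝ) : ℂ) := by
      push_cast
      ring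
    rw [h2] at h1
    exact_mod_cast h1.symm
  -- orthogonal vectors of the flats
  have hp : ∀ X ∈ flats f c, ∃ p : Fin 3 → ℂ, star p ⬝ᵥ p = 1 ∧
      ∀ i ∈ X, star (u i) ⬝ᵥ p = 0 := by
    intro X hX
    obtain ⟨i, j, hij, hXeq⟩ := mem_lines.mp (mem_flats.mp hX).1
    have hli : LinearIndependent ℂ ![u i, u j] := by
      have h3 : (s i : ℂ) ≠ 0 := by exact_mod_cast (hs0 i).ne'
      have h4 : (s j : ℂ) ≠ 0 := by exact_mod_cast (hs0 j).ne'
      exact pair_smul (pair_map hB (h.indep i j hij)) h3 h4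
    obtain ⟨p, hp1, hp2, hp3⟩ := exists_orth (u i) (u j) hli
    refine ⟨p, hp1, fun k hk => ?_⟩
    rw [← hXeq, mem_vecLine, Submodule.mem_span_pair] at hk
    obtain ⟨a, b, hab⟩ := hk
    have hsi : (s i : ℂ) ≠ 0 := by exact_mod_cast (hs0 i).ne'
    have hsj : (s j : ℂ) ≠ 0 := by exact_mod_cast (hs0 j).ne'
    have h1 : u k = ((s k : ℂ) * a / (s i : ℂ)) • u i + ((s k : ℂ) * b / (s j : ℂ)) • u j := by
      simp only [hudef]
      rw [← hab, mulVec_add, mulVec_smul, mulVec_smul, smul_add, smul_smul, smul_smul, smul_smul,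
        smul_smul]
      congr 2
      · field_simp
      · field_simp
    rw [h1, star_add, star_smul _ (u i), star_smul _ (u j), add_dotProduct,
      smul_dotProduct _ (star (u i)), smul_dotProduct _ (star (u j)), hp2, hp3, smul_zero,
      smul_zero, add_zero]
  choose! p hp1 hp2 using hp
  -- classes
  have hclass : ∀ v : Fin 4, ∑ i ∈ univ.filter (fun i => c i = v), M i = d := by
    intro v
    have := h.total v
    simp only [hM]
    exact_mod_cast this
  have hflat : ∀ X ∈ flats f c, ∑ i ∈ X, M i = 4 * (mult c m X : ℝ) := by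
    intro X hX
    have := h.sum_flat hX
    simp only [hM]
    exact_mod_cast this
  have hflatc : ∀ X ∈ flats f c, ∀ v, ∑ i ∈ X.filter (fun k => c k = v), M i =
      (mult c m X : ℝ) := by
    intro X hX v
    have := h.sum_class hX v
    simp only [hM]
    exact_mod_cast this
  -- the three kinds of terms
  have hv : ∀ v : Fin 4, hs (ns u M (univ.filter (fun i => c i = v)) -
      (((d : ℝ) / 3 : ℝ) : ℂ) • 1) =
      ∑ i ∈ univ.filter (fun i => c i = v), ∑ j ∈ univ.filter (fun i => c i = v),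
        M i * M j * ov (u i) (u j) - (d : ℝ) ^ 2 / 3 := by
    intro v
    rw [hs_sub_one u M _ (fun i _ => hu i), hclass v]
    ring
  have hXs : ∀ X ∈ flats f c, hs (ns u M X - ((2 * mult c m X : ℝ) : ℂ) • (1 - pr (p X))) =
      ∑ i ∈ X, ∑ j ∈ X, M i * M j * ov (u i) (u j) - 8 * (mult c m X : ℝ) ^ 2 := by
    intro X hX
    rw [hs_sub_plane u M X (fun i _ => hu i) _ (p X) (hp1 X hX) (hp2 X hX), hflat X hX]
    ring
  set G : ι → ι → ℝ := fun i j => if c i = c j then M i * M j * (1 - ov (u i) (u j)) else 0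
    with hG
  have hGnn : ∀ i j, 0 ≤ G i j := by
    intro i j
    simp only [hG]
    split_ifs
    · have := ov_le_one (hu i) (hu j)
      have h1 := (hMpos i).le
      have h2 := (hMpos j).le
      exact mul_nonneg (mul_nonneg h1 h2) (by linarith)
    · exact le_rfl
  have hGX : ∀ X ∈ flats f c, ∑ i ∈ X, ∑ j ∈ X, G i j = 4 * (mult c m X : ℝ) ^ 2 -
      ∑ i ∈ X, ∑ j ∈ X, (if c i = c j then M i * M j * ov (u i) (u j) else 0) := by
    intro X hX
    have h1 : ∑ i ∈ X, ∑ j ∈ X, (if c i = c j then M i * M j else 0) =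
        4 * (mult c m X : ℝ) ^ 2 := by
      rw [sum_same_class c X (fun i j => M i * M j)]
      have h2 : ∀ v : Fin 4, ∑ i ∈ X.filter (fun k => c k = v),
          ∑ j ∈ X.filter (fun k => c k = v), M i * M j = (mult c m X : ℝ) ^ 2 := by
        intro v
        rw [← sum_mul_sum, hflatc X hX v]
        ring
      rw [sum_congr rfl (fun v _ => h2 v)]
      simp
    rw [← h1, ← sum_sub_distrib]
    refine sum_congr rfl (fun i _ => ?_)
    rw [← sum_sub_distrib]
    refine sum_congr rfl (fun j _ => ?_)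
    simp only [hG]
    split_ifs <;> ring
  -- the number of cross pairs
  have hn2 : 12 * ∑ X ∈ flats f c, (mult c m X : ℝ) ^ 2 = 12 * (d : ℝ) ^ 2 := by
    have h1 := h.sum_pairs (fun i j => if c i = c j then 0 else M i * M j)
      (fun i j hij => by simp [hij])
    have h2 : ∀ (X : Finset ι) (a b : ℝ), ∑ i ∈ X, M i = a →
        (∀ v : Fin 4, ∑ i ∈ X.filter (fun k => c k = v), M i = b) →
        ∑ i ∈ X, ∑ j ∈ X, (if c i = c j then 0 else M i * M j) = a ^ 2 - 4 * b ^ 2 := by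
      intro X a b ha hb
      have h3 : ∑ i ∈ X, ∑ j ∈ X, (if c i = c j then 0 else M i * M j) =
          ∑ i ∈ X, ∑ j ∈ X, M i * M j -
            ∑ i ∈ X, ∑ j ∈ X, (if c i = c j then M i * M j else 0) := by
        rw [← sum_sub_distrib]
        refine sum_congr rfl (fun i _ => ?_)
        rw [← sum_sub_distrib]
        refine sum_congr rfl (fun j _ => ?_)
        split_ifs <;> ring
      rw [h3, sum_same_class c X (fun i j => M i * M j), ← sum_mul_sum, ha]
      have h4 : ∀ v : Fin 4, ∑ i ∈ X.filter (fun k => c k = v),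
          ∑ j ∈ X.filter (fun k => c k = v), M i * M j = b ^ 2 := by
        intro v
        rw [← sum_mul_sum, hb v]
        ring
      rw [sum_congr rfl (fun v _ => h4 v)]
      simp only [sum_const, card_univ, Fintype.card_fin, nsmul_eq_mul]
      push_cast
      ring
    rw [sum_congr rfl (fun X hX => h2 X _ _ (hflat X hX) (hflatc X hX)),
      h2 univ (4 * d) d h.sum_all hclass] at h1
    rw [mul_sum]
    calc ∑ X ∈ flats f c, 12 * (mult c m X : ℝ) ^ 2
        = ∑ X ∈ flats f c, ((4 * (mult c m X : ℝ)) ^ 2 - 4 * (mult c m X : ℝ) ^ 2) := by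
          refine sum_congr rfl (fun X _ => ?_)
          ring
      _ = _ := by rw [h1]; ring
  -- the total vanishes
  have hcross := h.sum_pairs (fun i j => if c i = c j then 0 else M i * M j * ov (u i) (u j))
    (fun i j hij => by simp [hij])
  have hsplit : ∀ X : Finset ι, ∑ i ∈ X, ∑ j ∈ X, M i * M j * ov (u i) (u j) =
      ∑ i ∈ X, ∑ j ∈ X, (if c i = c j then M i * M j * ov (u i) (u j) else 0) +
      ∑ i ∈ X, ∑ j ∈ X, (if c i = c j then 0 else M i * M j * ov (u i) (u j)) := by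
    intro X
    rw [← sum_add_distrib]
    refine sum_congr rfl (fun i _ => ?_)
    rw [← sum_add_distrib]
    refine sum_congr rfl (fun j _ => ?_)
    split_ifs <;> ring
  have hzero : ∑ v : Fin 4, hs (ns u M (univ.filter (fun i => c i = v)) -
      (((d : ℝ) / 3 : ℝ) : ℂ) • 1) +
      ∑ X ∈ flats f c, (hs (ns u M X - ((2 * mult c m X : ℝ) : ℂ) • (1 - pr (p X))) +
        ∑ i ∈ X, ∑ j ∈ X, G i j) = 0 := by
    have h1 : ∀ X ∈ flats f c,
        hs (ns u M X - ((2 * mult c m X : ℝ) : ℂ) • (1 - pr (p X))) +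
        ∑ i ∈ X, ∑ j ∈ X, G i j =
        ∑ i ∈ X, ∑ j ∈ X, (if c i = c j then 0 else M i * M j * ov (u i) (u j)) -
          4 * (mult c m X : ℝ) ^ 2 := by
      intro X hX
      rw [hXs X hX, hGX X hX, hsplit X]
      ring
    rw [sum_congr rfl h1, sum_sub_distrib, hcross, ← mul_sum, sum_congr rfl (fun v _ => hv v),
      sum_sub_distrib]
    have h2 := sum_same_class c univ (fun i j => M i * M j * ov (u i) (u j))
    rw [← h2]
    have h3 := hsplit univ
    rw [htot] at h3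
    simp only [sum_const, card_univ, Fintype.card_fin, nsmul_eq_mul]
    push_cast
    linarith
  have hnn1 : 0 ≤ ∑ v : Fin 4, hs (ns u M (univ.filter (fun i => c i = v)) -
      (((d : ℝ) / 3 : ℝ) : ℂ) • 1) := sum_nonneg (fun _ _ => hs_nonneg _)
  have hnn2' : ∀ X ∈ flats f c,
      0 ≤ hs (ns u M X - ((2 * mult c m X : ℝ) : ℂ) • (1 - pr (p X))) +
        ∑ i ∈ X, ∑ j ∈ X, G i j := fun X _ =>
    add_nonneg (hs_nonneg _) (sum_nonneg (fun i _ => sum_nonneg (fun j _ => hGnn i j)))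
  have hnn2 := sum_nonneg hnn2'
  have hz1 : ∑ v : Fin 4, hs (ns u M (univ.filter (fun i => c i = v)) -
      (((d : ℝ) / 3 : ℝ) : ℂ) • 1) = 0 := by linarith
  have hz2 : ∑ X ∈ flats f c, (hs (ns u M X - ((2 * mult c m X : ℝ) : ℂ) • (1 - pr (p X))) +
        ∑ i ∈ X, ∑ j ∈ X, G i j) = 0 := by linarith
  refine ⟨B, s, hB, hs0, hu, fun v => ?_, fun X hX => ⟨p X, hp1 X hX, hp2 X hX, ?_⟩,
    fun X hX i hi j hj hij => ?_⟩
  · have h1 := (sum_eq_zero_iff_of_nonneg (fun v _ => hs_nonneg _)).mp hz1 v (mem_univ v)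
    exact sub_eq_zero.mp (eq_zero_of_hs h1)
  · have h1 := (sum_eq_zero_iff_of_nonneg hnn2').mp hz2 X hX
    have h2 : hs (ns u M X - ((2 * mult c m X : ℝ) : ℂ) • (1 - pr (p X))) = 0 := by
      have h3 := hs_nonneg (ns u M X - ((2 * mult c m X : ℝ) : ℂ) • (1 - pr (p X)))
      have h4 : 0 ≤ ∑ i ∈ X, ∑ j ∈ X, G i j :=
        sum_nonneg (fun i _ => sum_nonneg (fun j _ => hGnn i j))
      linarith
    exact sub_eq_zero.mp (eq_zero_of_hs h2)
  · have h1 := (sum_eq_zero_iff_of_nonneg hnn2').mp hz2 X hX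
    have h4 : ∑ i ∈ X, ∑ j ∈ X, G i j = 0 := by
      have h3 := hs_nonneg (ns u M X - ((2 * mult c m X : ℝ) : ℂ) • (1 - pr (p X)))
      have h4 : 0 ≤ ∑ i ∈ X, ∑ j ∈ X, G i j :=
        sum_nonneg (fun i _ => sum_nonneg (fun j _ => hGnn i j))
      linarith
    have h5 := (sum_eq_zero_iff_of_nonneg
      (fun i _ => sum_nonneg (fun j _ => hGnn i j))).mp h4 i hi
    have h6 := (sum_eq_zero_iff_of_nonneg (fun j _ => hGnn i j)).mp h5 j hj
    simp only [hG, if_pos hij] at h6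
    have h7 : ov (u i) (u j) = 1 := by
      have h8 := mul_pos (hMpos i) (hMpos j)
      have := (mul_eq_zero.mp h6).resolve_left h8.ne'
      linarith
    by_contra hne
    have h8 := eq_smul_of_ov_eq_one (hu i) (hu j) h7
    -- `B f j` is a multiple of `B f i`
    have h10 := pair_map hB (h.indep i j hne)
    rw [LinearIndependent.pair_iff] at h10
    have h11 := h10 ((star (u i) ⬝ᵥ u j) * (s i : ℂ)) (-(s j : ℂ)) (by
      have h12 : (s j : ℂ) • (B *ᵥ f j) = (star (u i) ⬝ᵥ u j) • ((s i : ℂ) • (B *ᵥ f i)) := h8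
      rw [neg_smul, h12, smul_smul, add_neg_cancel])
    have h12 : (s j : ℂ) ≠ 0 := by exact_mod_cast (hs0 j).ne'
    exact h12 (neg_eq_zero.mp h11.2)

end Pool.Agent.H284_net
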