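import Mathlib
import Pool.Agent.H284_beta.Vec

/-!
# The pencil of a net, elementary form
-/

set_option autoImplicit false

open Matrix Finset
open Pool.Agent.H284_beta

namespace Pool.Agent.H284_net

variable {ι : Type*} [Fintype ι] [DecidableEq ι]

/-- The product of the values at `x` of the normals of class `v` not vanishing at `x`. -/
noncomputable def rest (f : ι → (Fin 3 → ℂ)) (c : ι → Fin 4) (v : Fin 4) (x : Fin 3 → ℂ) : ℂ :=
  ∏ l ∈ (univ.filter (fun l => c l = v)).filter (fun l => f l ⬝ᵥ x ≠ 0), f l ⬝ᵥ x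

lemma rest_ne_zero (f : ι → (Fin 3 → ℂ)) (c : ι → Fin 4) (v : Fin 4) (x : Fin 3 → ℂ) :
    rest f c v x ≠ 0 := by
  rw [rest, prod_ne_zero_iff]
  intro l hl
  exact (mem_filter.mp hl).2

variable {f : ι → (Fin 3 → ℂ)} {c : ι → Fin 4}

/-- Two normals vanishing at a point and a third one in the same plane. -/
lemma dot_eq_zero_of_mem {i j k : ι} (hk : k ∈ vecLine f i j) {x : Fin 3 → ℂ}
    (hi : f i ⬝ᵥ x = 0) (hj : f j ⬝ᵥ x = 0) : f k ⬝ᵥ x = 0 := by
  rw [mem_vecLine, Submodule.mem_span_pair] at hk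
  obtain ⟨a, b, hab⟩ := hk
  rw [← hab, add_dotProduct, smul_dotProduct, smul_dotProduct, hi, hj]
  simp

/-- A normal vanishing at the intersection point of two lines lies in their plane. -/
lemma mem_of_dot_eq_zero {i j k : ι} (hij : LinearIndependent ℂ ![f i, f j]) {x : Fin 3 → ℂ}
    (hx : x ≠ 0) (hi : f i ⬝ᵥ x = 0) (hj : f j ⬝ᵥ x = 0) (hk : f k ⬝ᵥ x = 0) :
    k ∈ vecLine f i j := by
  rw [mem_vecLine]
  -- the space of vectors orthogonal to `x`
  let φ : (Fin 3 → ℂ) →ₗ[ℂ] ℂ :=
    { toFun := fun y => y ⬝ᵥ x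
      map_add' := fun y z => add_dotProduct _ _ _
      map_smul' := fun a y => by simp [smul_dotProduct] }
  have hφ : LinearMap.range φ = ⊤ := by
    rw [LinearMap.range_eq_top]
    apply LinearMap.surjective
    intro h0
    apply hx
    ext a
    have := congrArg (fun ψ : (Fin 3 → ℂ) →ₗ[ℂ] ℂ => ψ (Pi.single a 1)) h0
    simpa [φ] using this
  have hker : Module.finrank ℂ (LinearMap.ker φ) = 2 := by
    have h1 := LinearMap.finrank_range_add_finrank_ker φ
    rw [hφ, finrank_top, Module.finrank_self, Module.finrank_fin_fun] at h1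
    omega
  have hle : Submodule.span ℂ ({f i, f j} : Set (Fin 3 → ℂ)) ≤ LinearMap.ker φ := by
    rw [Submodule.span_le]
    intro z hz
    simp only [Set.mem_insert_iff, Set.mem_singleton_iff] at hz
    rcases hz with rfl | rfl
    · exact LinearMap.mem_ker.mpr hi
    · exact LinearMap.mem_ker.mpr hj
  have heq := Submodule.eq_of_le_of_finrank_eq hle (by rw [finrank_span_pair hij, hker])
  rw [heq]
  exact LinearMap.mem_ker.mpr hk

/-- **The pencil of a net**: the constants do not depend on the base point. -/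
theorem pencil (hf : ∀ i j, i ≠ j → LinearIndependent ℂ ![f i, f j])
    (net : ∀ i j, c i ≠ c j → ∀ v, ∃! k, k ∈ vecLine f i j ∧ c k = v)
    {p q w : Fin 4} (hpq : p ≠ q) (hpw : p ≠ w) (hqw : q ≠ w) :
    ∃ μ : ℂ, μ ≠ 0 ∧ ∀ i j k, c i = p → c j = q → c k = w → ∀ s t : ℂ,
      f k = s • f i + t • f j → ∀ x, x ≠ 0 → f i ⬝ᵥ x = 0 → f j ⬝ᵥ x = 0 →
        rest f c w x * t = μ * rest f c q x := by
  classical
  have hL := isLinSp_vecLine f hf
  -- the third line through the intersection of `i` and `j`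
  have hch : ∀ i j, ∃ k, c i = p → c j = q → (k ∈ vecLine f i j ∧ c k = w) := by
    intro i j
    by_cases h : c i = p ∧ c j = q
    · obtain ⟨k, hk, _⟩ := net i j (by rw [h.1, h.2]; exact hpq) w
      exact ⟨k, fun _ _ => hk⟩
    · exact ⟨i, fun h1 h2 => absurd ⟨h1, h2⟩ h⟩
  choose e he using hch
  have hst : ∀ i j, ∃ st : ℂ × ℂ, c i = p → c j = q → f (e i j) = st.1 • f i + st.2 • f j := by
    intro i j
    by_cases h : c i = p ∧ c j = q
    · have h1 := (he i j h.1 h.2).1
      rw [mem_vecLine, Submodule.mem_span_pair] at h1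
      obtain ⟨a, b, hab⟩ := h1
      exact ⟨(a, b), fun _ _ => hab.symm⟩
    · exact ⟨0, fun h1 h2 => absurd ⟨h1, h2⟩ h⟩
  choose st hst using hst
  set Cq : Finset ι := univ.filter (fun l => c l = q) with hCq
  set Cw : Finset ι := univ.filter (fun l => c l = w) with hCw
  -- uniqueness
  have huniq : ∀ i j k, c i = p → c j = q → c k = w → k ∈ vecLine f i j → k = e i j := by
    intro i j k hi hj hk hkX
    exact (net i j (by rw [hi, hj]; exact hpq) w).unique ⟨hkX, hk⟩ (he i j hi hj)
  have hne : ∀ i j, c i = p → c j = q → i ≠ j := by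
    rintro i _ hi hj rfl
    exact hpq (hi.symm.trans hj)
  -- nonvanishing of the coefficients
  have ht0 : ∀ i j, c i = p → c j = q → (st i j).2 ≠ 0 := by
    intro i j hi hj h0
    have h1 := hst i j hi hj
    rw [h0, zero_smul, add_zero] at h1
    have hne' : e i j ≠ i := by
      intro h2
      have := (he i j hi hj).2
      rw [h2, hi] at this
      exact hpw this
    have h3 := hf _ _ hne'
    rw [LinearIndependent.pair_iff] at h3
    have := h3 (-1) (st i j).1 (by rw [h1]; module)
    norm_num at this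
  -- bijectivity
  have hinj : ∀ i, c i = p → ∀ j ∈ Cq, ∀ j' ∈ Cq, e i j = e i j' → j = j' := by
    intro i hi j hj j' hj' hee
    have hj := (mem_filter.mp hj).2
    have hj' := (mem_filter.mp hj').2
    obtain ⟨h1, h2⟩ := he i j hi hj
    obtain ⟨h3, h4⟩ := he i j' hi hj'
    have hie : i ≠ e i j := by
      intro h5
      rw [← h5, hi] at h2
      exact hpw h2
    have e1 := hL.eq_of_mem i j i (e i j) (hne i j hi hj) hie (hL.left_mem i j (hne i j hi hj)) h1
    rw [← hee] at h3
    have e2 := hL.eq_of_mem i j' i (e i j) (hne i j' hi hj') hie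
      (hL.left_mem i j' (hne i j' hi hj')) h3
    have m1 : j' ∈ vecLine f i j := by
      rw [← e1, e2]
      exact hL.right_mem i j' (hne i j' hi hj')
    exact (net i j (by rw [hi, hj]; exact hpq) q).unique
      ⟨hL.right_mem i j (hne i j hi hj), hj⟩ ⟨m1, hj'⟩
  have hsurj : ∀ i, c i = p → ∀ k ∈ Cw, ∃ j, ∃ _ : j ∈ Cq, e i j = k := by
    intro i hi k hk
    have hk := (mem_filter.mp hk).2
    obtain ⟨j, ⟨hj1, hj2⟩, _⟩ := net i k (by rw [hi, hk]; exact hpw) q
    refine ⟨j, mem_filter.mpr ⟨mem_univ j, hj2⟩, ?_⟩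
    have hik : i ≠ k := by
      rintro rfl
      exact hpw (hi.symm.trans hk)
    have e1 := hL.eq_of_mem i k i j hik (hne i j hi hj2) (hL.left_mem i k hik) hj1
    refine (huniq i j k hi hj2 hk ?_).symm
    rw [e1]
    exact hL.right_mem i k hik
  -- the values on the line `i`
  have hval : ∀ i j, c i = p → c j = q → ∀ x, f i ⬝ᵥ x = 0 →
      f (e i j) ⬝ᵥ x = (st i j).2 * (f j ⬝ᵥ x) := by
    intro i j hi hj x hx
    rw [hst i j hi hj, add_dotProduct, smul_dotProduct, smul_dotProduct, hx]
    simp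
  have hprod : ∀ i, c i = p → ∀ x, f i ⬝ᵥ x = 0 →
      ∏ k ∈ Cw, f k ⬝ᵥ x = (∏ j ∈ Cq, (st i j).2) * ∏ j ∈ Cq, f j ⬝ᵥ x := by
    intro i hi x hx
    rw [← prod_mul_distrib]
    refine (prod_bij (fun j _ => e i j) ?_ ?_ ?_ ?_).symm
    · intro j hj
      exact mem_filter.mpr ⟨mem_univ _, (he i j hi (mem_filter.mp hj).2).2⟩
    · intro j hj j' hj' h
      exact hinj i hi j hj j' hj' h
    · intro k hk
      obtain ⟨j, hj, hjk⟩ := hsurj i hi k hk
      exact ⟨j, hj, hjk⟩
    · intro j hj
      exact (hval i j hi (mem_filter.mp hj).2 x hx).symm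
  -- the constant does not depend on `i`
  have hconst : ∀ i i', c i = p → c i' = p →
      ∏ j ∈ Cq, (st i j).2 = ∏ j ∈ Cq, (st i' j).2 := by
    intro i i' hi hi'
    by_cases hii : i = i'
    · rw [hii]
    · set x := crossProduct (f i) (f i') with hx
      have hx1 : f i ⬝ᵥ x = 0 := dot_self_cross (f i) (f i')
      have hx2 : f i' ⬝ᵥ x = 0 := dot_cross_self (f i) (f i')
      have hx0 : x ≠ 0 := by
        rw [hx, crossProduct_ne_zero_iff_linearIndependent]
        exact hf i i' hii
      have h1 := hprod i hi x hx1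
      have h2 := hprod i' hi' x hx2
      rw [h1] at h2
      have h3 : ∏ j ∈ Cq, f j ⬝ᵥ x ≠ 0 := by
        rw [prod_ne_zero_iff]
        intro j hj h0
        have hj := (mem_filter.mp hj).2
        have h4 := mem_of_dot_eq_zero (hf i j (hne i j hi hj)) hx0 hx1 h0 hx2
        exact hii ((net i j (by rw [hi, hj]; exact hpq) p).unique
          ⟨hL.left_mem i j (hne i j hi hj), hi⟩ ⟨h4, hi'⟩)
      exact mul_right_cancel₀ h3 h2
  by_cases hex : ∃ i, c i = p
  · obtain ⟨i0, hi0⟩ := hex
    refine ⟨∏ j ∈ Cq, (st i0 j).2, ?_, ?_⟩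
    · rw [prod_ne_zero_iff]
      intro j hj
      exact ht0 i0 j hi0 (mem_filter.mp hj).2
    · intro i j k hi hj hk s t hkst x hx0 hxi hxj
      rw [hconst i0 i hi0 hi]
      -- `k = e i j`
      have hkX : k ∈ vecLine f i j := by
        rw [mem_vecLine, Submodule.mem_span_pair]
        exact ⟨s, t, hkst.symm⟩
      have hke := huniq i j k hi hj hk hkX
      have hkx : f k ⬝ᵥ x = 0 := dot_eq_zero_of_mem hkX hxi hxj
      -- `t = (st i j).2`
      have ht : t = (st i j).2 := by
        have h1 := hst i j hi hj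
        rw [← hke, hkst] at h1
        have h2 := hf i j (hne i j hi hj)
        rw [LinearIndependent.pair_iff] at h2
        have h3 := h2 (s - (st i j).1) (t - (st i j).2) (by
          have h4 : (s - (st i j).1) • f i + (t - (st i j).2) • f j =
              (s • f i + t • f j) - ((st i j).1 • f i + (st i j).2 • f j) := by module
          rw [h4, h1, sub_self])
        exact sub_eq_zero.mp h3.2
      -- the lines through `x`
      have hq : Cq.filter (fun l => f l ⬝ᵥ x ≠ 0) = Cq.erase j := by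
        ext l
        simp only [mem_filter, mem_erase]
        constructor
        · rintro ⟨h1, h2⟩
          refine ⟨?_, h1⟩
          rintro rfl
          exact h2 hxj
        · rintro ⟨h1, h2⟩
          refine ⟨h2, fun h3 => h1 ?_⟩
          have h4 := mem_of_dot_eq_zero (hf i j (hne i j hi hj)) hx0 hxi hxj h3
          exact (net i j (by rw [hi, hj]; exact hpq) q).unique
            ⟨h4, (mem_filter.mp h2).2⟩ ⟨hL.right_mem i j (hne i j hi hj), hj⟩
      have hw : Cw.filter (fun l => f l ⬝ᵥ x ≠ 0) = Cw.erase k := by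
        ext l
        simp only [mem_filter, mem_erase]
        constructor
        · rintro ⟨h1, h2⟩
          refine ⟨?_, h1⟩
          rintro rfl
          exact h2 hkx
        · rintro ⟨h1, h2⟩
          refine ⟨h2, fun h3 => h1 ?_⟩
          have h4 := mem_of_dot_eq_zero (hf i j (hne i j hi hj)) hx0 hxi hxj h3
          exact (net i j (by rw [hi, hj]; exact hpq) w).unique
            ⟨h4, (mem_filter.mp h2).2⟩ ⟨hkX, hk⟩
      have hjC : j ∈ Cq := mem_filter.mpr ⟨mem_univ j, hj⟩
      have hkC : k ∈ Cw := mem_filter.mpr ⟨mem_univ k, hk⟩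
      have hrw : rest f c w x = (∏ l ∈ Cq.erase j, (st i l).2) * rest f c q x := by
        rw [rest, rest, ← hCw, ← hCq, hw, hq, ← prod_mul_distrib]
        refine (prod_bij (fun l _ => e i l) ?_ ?_ ?_ ?_).symm
        · intro l hl
          have hl := mem_erase.mp hl
          refine mem_erase.mpr ⟨?_, mem_filter.mpr
            ⟨mem_univ _, (he i l hi (mem_filter.mp hl.2).2).2⟩⟩
          intro h1
          apply hl.1
          rw [hke] at h1
          exact hinj i hi l hl.2 j hjC h1
        · intro l hl l' hl' h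
          exact hinj i hi l (mem_erase.mp hl).2 l' (mem_erase.mp hl').2 h
        · intro l hl
          have hl := mem_erase.mp hl
          obtain ⟨l', hl', hll⟩ := hsurj i hi l hl.2
          refine ⟨l', mem_erase.mpr ⟨?_, hl'⟩, hll⟩
          rintro rfl
          apply hl.1
          rw [← hll, hke]
        · intro l hl
          exact (hval i l hi (mem_filter.mp (mem_erase.mp hl).2).2 x hxi).symm
      rw [hrw, ht, ← mul_prod_erase Cq (fun l => (st i l).2) hjC]
      ring
  · exact ⟨1, one_ne_zero, fun i j k hi => absurd ⟨i, hi⟩ hex⟩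

end Pool.Agent.H284_net
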