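import Mathlib
import Pool.Agent.H284_net.Pencil
import Pool.Agent.H284_net.Equal

/-!
# All overlaps between different classes are equal to one third
-/

set_option autoImplicit false

open Matrix Finset
open Pool.Agent.H284_beta

namespace Pool.Agent.H284_net

/-- The squared norm. -/
noncomputable def nsq (z : Fin 3 → ℂ) : ℝ := ∑ a, ‖z a‖ ^ 2

lemma lagrange (x y : Fin 3 → ℂ) :
    nsq (crossProduct x y) = nsq x * nsq y - ov x y := by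
  have h : crossProduct x y = ![x 1 * y 2 - x 2 * y 1, x 2 * y 0 - x 0 * y 2,
      x 0 * y 1 - x 1 * y 0] := cross_apply x y
  rw [h]
  unfold nsq ov
  simp only [Fin.sum_univ_three, dotProduct, Pi.star_apply, Complex.star_def,
    ← Complex.normSq_eq_norm_sq, Complex.normSq_apply, cons_val_zero, cons_val_one, Matrix.cons_val,
    Complex.sub_re, Complex.sub_im, Complex.mul_re, Complex.mul_im, Complex.add_re, Complex.add_im,
    Complex.conj_re, Complex.conj_im]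
  ring

lemma nsq_smul (a : ℂ) (z : Fin 3 → ℂ) : nsq (a • z) = ‖a‖ ^ 2 * nsq z := by
  unfold nsq
  rw [mul_sum]
  refine sum_congr rfl (fun i _ => ?_)
  rw [Pi.smul_apply, smul_eq_mul, norm_mul, mul_pow]

lemma nsq_unit {x : Fin 3 → ℂ} (hx : star x ⬝ᵥ x = 1) : nsq x = 1 := by
  rw [star_dot_self] at hx
  unfold nsq
  exact_mod_cast hx

lemma nsq_cross {x y : Fin 3 → ℂ} (hx : star x ⬝ᵥ x = 1) (hy : star y ⬝ᵥ y = 1) (a b : ℂ) :
    nsq (crossProduct (a • x) (b • y)) = ‖a‖ ^ 2 * ‖b‖ ^ 2 * (1 - ov x y) := by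
  rw [map_smul, map_smul, LinearMap.smul_apply, nsq_smul, nsq_smul, lagrange, nsq_unit hx,
    nsq_unit hy]
  ring

/-- The overlaps at a base point are determined by the constants of the pencil. -/
lemma overlap_formula {u0 u1 u2 u3 : Fin 3 → ℂ} (h0 : star u0 ⬝ᵥ u0 = 1)
    (h1 : star u1 ⬝ᵥ u1 = 1) (h2 : star u2 ⬝ᵥ u2 = 1) (h3 : star u3 ⬝ᵥ u3 = 1)
    {r0 r1 r2 r3 α β γ δ : ℂ} (hr0 : r0 ≠ 0) (hr1 : r1 ≠ 0) (hr2 : r2 ≠ 0) (hr3 : r3 ≠ 0)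
    (e2 : r2 • u2 = α • (r0 • u0) + β • (r1 • u1))
    (e3 : r3 • u3 = γ • (r0 • u0) + δ • (r1 • u1))
    (s0 : ov u0 u1 + ov u0 u2 + ov u0 u3 = 1) (s1 : ov u0 u1 + ov u1 u2 + ov u1 u3 = 1)
    (s2 : ov u0 u2 + ov u1 u2 + ov u2 u3 = 1) (s3 : ov u0 u3 + ov u1 u3 + ov u2 u3 = 1) :
    ((1 - ov u0 u1) * (‖α * δ - β * γ‖ + ‖β * γ‖ + ‖α * δ‖) = 2 * ‖α * δ - β * γ‖) ∧
    ((1 - ov u0 u2) * (‖α * δ - β * γ‖ + ‖β * γ‖ + ‖α * δ‖) = 2 * ‖β * γ‖) ∧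
    ((1 - ov u0 u3) * (‖α * δ - β * γ‖ + ‖β * γ‖ + ‖α * δ‖) = 2 * ‖α * δ‖) ∧
    ov u2 u3 = ov u0 u1 ∧ ov u1 u3 = ov u0 u2 ∧ ov u1 u2 = ov u0 u3 := by
  have t23 : ov u2 u3 = ov u0 u1 := by linarith
  have t13 : ov u1 u3 = ov u0 u2 := by linarith
  have t12 : ov u1 u2 = ov u0 u3 := by linarith
  obtain ⟨y0, hy0⟩ : ∃ y0, y0 = r0 • u0 := ⟨_, rfl⟩
  obtain ⟨y1, hy1⟩ : ∃ y1, y1 = r1 • u1 := ⟨_, rfl⟩
  rw [← hy0, ← hy1] at e2 e3
  obtain ⟨n, hn⟩ : ∃ n, n = nsq (crossProduct y0 y1) := ⟨_, rfl⟩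
  have hnn : 0 ≤ n := by
    rw [hn]
    unfold nsq
    positivity
  have c02 : nsq (crossProduct y0 (r2 • u2)) = ‖β‖ ^ 2 * n := by
    rw [e2, map_add, map_smul, map_smul, cross_self, smul_zero, zero_add, nsq_smul, ← hn]
  have c12 : nsq (crossProduct y1 (r2 • u2)) = ‖α‖ ^ 2 * n := by
    rw [e2, map_add, map_smul, map_smul, cross_self, smul_zero, add_zero, nsq_smul, hn,
      ← cross_anticomm y0 y1, ← neg_one_smul ℂ, nsq_smul]
    simp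
  have c03 : nsq (crossProduct y0 (r3 • u3)) = ‖δ‖ ^ 2 * n := by
    rw [e3, map_add, map_smul, map_smul, cross_self, smul_zero, zero_add, nsq_smul, ← hn]
  have c13 : nsq (crossProduct y1 (r3 • u3)) = ‖γ‖ ^ 2 * n := by
    rw [e3, map_add, map_smul, map_smul, cross_self, smul_zero, add_zero, nsq_smul, hn,
      ← cross_anticomm y0 y1, ← neg_one_smul ℂ, nsq_smul]
    simp
  have c23 : nsq (crossProduct (r2 • u2) (r3 • u3)) = ‖α * δ - β * γ‖ ^ 2 * n := by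
    have h4 : crossProduct (r2 • u2) (r3 • u3) = (α * δ - β * γ) • crossProduct y0 y1 := by
      rw [e2, e3]
      simp only [map_add, LinearMap.add_apply, map_smul, LinearMap.smul_apply, cross_self,
        smul_zero, zero_add, add_zero]
      rw [← cross_anticomm y0 y1]
      module
    rw [h4, nsq_smul, ← hn]
  have c01 : nsq (crossProduct y0 y1) = n := hn.symm
  rw [hy0, nsq_cross h0 h2] at c02
  rw [hy1, nsq_cross h1 h2] at c12
  rw [hy0, nsq_cross h0 h3] at c03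
  rw [hy1, nsq_cross h1 h3] at c13
  rw [nsq_cross h2 h3] at c23
  rw [hy0, hy1, nsq_cross h0 h1] at c01
  rw [t12] at c12
  rw [t13] at c13
  rw [t23] at c23
  have a01 := ov_le_one h0 h1
  have a02 := ov_le_one h0 h2
  have a03 := ov_le_one h0 h3
  set R := ‖r0‖ * ‖r1‖ * ‖r2‖ * ‖r3‖ with hR
  have hRpos : 0 < R := by
    have := norm_pos_iff.mpr hr0
    have := norm_pos_iff.mpr hr1
    have := norm_pos_iff.mpr hr2
    have := norm_pos_iff.mpr hr3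
    positivity
  have k1 : R * (1 - ov u0 u1) = ‖α * δ - β * γ‖ * n := by
    have : (R * (1 - ov u0 u1)) ^ 2 = (‖α * δ - β * γ‖ * n) ^ 2 := by
      calc (R * (1 - ov u0 u1)) ^ 2 = (‖r0‖ ^ 2 * ‖r1‖ ^ 2 * (1 - ov u0 u1)) *
            (‖r2‖ ^ 2 * ‖r3‖ ^ 2 * (1 - ov u0 u1)) := by rw [hR]; ring
        _ = n * (‖α * δ - β * γ‖ ^ 2 * n) := by rw [c01, c23]
        _ = _ := by ring
    exact (pow_left_inj₀ (mul_nonneg hRpos.le (by linarith)) (by positivity)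
      (by norm_num)).mp this
  have k2 : R * (1 - ov u0 u2) = ‖β * γ‖ * n := by
    have : (R * (1 - ov u0 u2)) ^ 2 = (‖β * γ‖ * n) ^ 2 := by
      calc (R * (1 - ov u0 u2)) ^ 2 = (‖r0‖ ^ 2 * ‖r2‖ ^ 2 * (1 - ov u0 u2)) *
            (‖r1‖ ^ 2 * ‖r3‖ ^ 2 * (1 - ov u0 u2)) := by rw [hR]; ring
        _ = (‖β‖ ^ 2 * n) * (‖γ‖ ^ 2 * n) := by rw [c02, c13]
        _ = _ := by rw [norm_mul]; ring
    exact (pow_left_inj₀ (mul_nonneg hRpos.le (by linarith)) (by positivity)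
      (by norm_num)).mp this
  have k3 : R * (1 - ov u0 u3) = ‖α * δ‖ * n := by
    have : (R * (1 - ov u0 u3)) ^ 2 = (‖α * δ‖ * n) ^ 2 := by
      calc (R * (1 - ov u0 u3)) ^ 2 = (‖r0‖ ^ 2 * ‖r3‖ ^ 2 * (1 - ov u0 u3)) *
            (‖r1‖ ^ 2 * ‖r2‖ ^ 2 * (1 - ov u0 u3)) := by rw [hR]; ring
        _ = (‖δ‖ ^ 2 * n) * (‖α‖ ^ 2 * n) := by rw [c03, c12]
        _ = _ := by rw [norm_mul]; ring
    exact (pow_left_inj₀ (mul_nonneg hRpos.le (by linarith)) (by positivity)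
      (by norm_num)).mp this
  have k4 : (‖α * δ - β * γ‖ + ‖β * γ‖ + ‖α * δ‖) * n = 2 * R := by
    have : R * (3 - (ov u0 u1 + ov u0 u2 + ov u0 u3)) =
        (‖α * δ - β * γ‖ + ‖β * γ‖ + ‖α * δ‖) * n := by
      linear_combination k1 + k2 + k3
    rw [s0] at this
    linarith
  refine ⟨?_, ?_, ?_, t23, t13, t12⟩
  · have : R * ((1 - ov u0 u1) * (‖α * δ - β * γ‖ + ‖β * γ‖ + ‖α * δ‖)) =
        R * (2 * ‖α * δ - β * γ‖) := by
      linear_combination (‖α * δ - β * γ‖ + ‖β * γ‖ + ‖α * δ‖) * k1 +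
        ‖α * δ - β * γ‖ * k4
    exact mul_left_cancel₀ hRpos.ne' this
  · have : R * ((1 - ov u0 u2) * (‖α * δ - β * γ‖ + ‖β * γ‖ + ‖α * δ‖)) =
        R * (2 * ‖β * γ‖) := by
      linear_combination (‖α * δ - β * γ‖ + ‖β * γ‖ + ‖α * δ‖) * k2 + ‖β * γ‖ * k4
    exact mul_left_cancel₀ hRpos.ne' this
  · have : R * ((1 - ov u0 u3) * (‖α * δ - β * γ‖ + ‖β * γ‖ + ‖α * δ‖)) =
        R * (2 * ‖α * δ‖) := by
      linear_combination (‖α * δ - β * γ‖ + ‖β * γ‖ + ‖α * δ‖) * k3 + ‖α * δ‖ * k4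
    exact mul_left_cancel₀ hRpos.ne' this

end Pool.Agent.H284_net
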