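import Mathlib
import Pool.Agent.H284_net.Third

/-!
# The dimension count: lines of one class are orthogonal
-/

set_option autoImplicit false

open Matrix Finset

namespace Pool.Agent.H284_net

variable {ι : Type*}

/-- The traceless part of a rank one projection. -/
noncomputable def tl (x : Fin 3 → ℂ) : Matrix (Fin 3) (Fin 3) ℂ := pr x - (1 / 3 : ℂ) • 1

lemma trace_tl {x : Fin 3 → ℂ} (hx : star x ⬝ᵥ x = 1) : trace (tl x) = 0 := by
  rw [tl, trace_sub, trace_pr, hx, trace_smul, trace_one]
  simp

lemma trace_tl_mul {x y : Fin 3 → ℂ} (hx : star x ⬝ᵥ x = 1) (hy : star y ⬝ᵥ y = 1) :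
    trace (tl x * tl y) = ((ov x y - 1 / 3 : ℝ) : ℂ) := by
  have h : tl x * tl y = pr x * pr y - (1 / 3 : ℂ) • pr x - (1 / 3 : ℂ) • pr y +
      (1 / 9 : ℂ) • 1 := by
    rw [tl, tl, sub_mul, mul_sub, mul_sub, smul_mul_assoc, mul_smul_comm, one_mul, mul_one,
      smul_mul_assoc, one_mul]
    module
  rw [h, trace_add, trace_sub, trace_sub, trace_smul, trace_smul, trace_smul, trace_one,
    trace_pr_mul, trace_pr, trace_pr, hx, hy]
  simp only [Fintype.card_fin, smul_eq_mul]
  push_cast
  ring

/-- Solving the two by two system. -/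
lemma solve_two {t : ℝ} (ht0 : 0 ≤ t) (ht1 : t ≠ 1) {x y : ℂ}
    (h1 : x * ((1 - 1 / 3 : ℝ) : ℂ) + y * ((t - 1 / 3 : ℝ) : ℂ) = 0)
    (h2 : x * ((t - 1 / 3 : ℝ) : ℂ) + y * ((1 - 1 / 3 : ℝ) : ℂ) = 0) : x = 0 ∧ y = 0 := by
  have hdet : ((1 - t) * (1 / 3 + t) : ℝ) ≠ 0 := by
    apply mul_ne_zero
    · intro h
      exact ht1 (by linarith)
    · positivity
  have hdet' : (((1 - t) * (1 / 3 + t) : ℝ) : ℂ) ≠ 0 := by exact_mod_cast hdet
  constructor
  · have : x * (((1 - t) * (1 / 3 + t) : ℝ) : ℂ) = 0 := by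
      push_cast at h1 h2 ⊢
      linear_combination (2 / 3 : ℂ) * h1 - ((t : ℂ) - 1 / 3) * h2
    exact (mul_eq_zero.mp this).resolve_right hdet'
  · have : y * (((1 - t) * (1 / 3 + t) : ℝ) : ℂ) = 0 := by
      push_cast at h1 h2 ⊢
      linear_combination (2 / 3 : ℂ) * h2 - ((t : ℂ) - 1 / 3) * h1
    exact (mul_eq_zero.mp this).resolve_right hdet'

/-- A relation in one class. -/
theorem exists_relation (u : ι → Fin 3 → ℂ) (c : ι → Fin 4)
    (hu : ∀ i, star (u i) ⬝ᵥ u i = 1)
    (hcross : ∀ i j, c i ≠ c j → ov (u i) (u j) = 1 / 3)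
    (hne : ∀ i j, i ≠ j → ov (u i) (u j) ≠ 1)
    (a b : Fin 4 → ι) (ha : ∀ v, c (a v) = v) (hb : ∀ v, c (b v) = v)
    (hab : ∀ v, a v ≠ b v) (k : ι) :
    ∃ x y : ℂ, tl (u k) = x • tl (u (a (c k))) + y • tl (u (b (c k))) := by
  classical
  set v := c k with hv
  let M : (Fin 4 × Bool) ⊕ Bool → Matrix (Fin 3) (Fin 3) ℂ := fun z =>
    match z with
    | Sum.inl (w, false) => tl (u (a w))
    | Sum.inl (w, true) => tl (u (b w))
    | Sum.inr false => 1
    | Sum.inr true => tl (u k)
  have hnot : ¬ LinearIndependent ℂ M := by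
    intro hli
    have h1 := hli.fintype_card_le_finrank
    rw [Module.finrank_matrix, Module.finrank_self] at h1
    simp at h1
  rw [Fintype.not_linearIndependent_iff] at hnot
  obtain ⟨g, hg, z0, hz0⟩ := hnot
  have hsum : ∑ w : Fin 4, (g (Sum.inl (w, false)) • tl (u (a w)) +
      g (Sum.inl (w, true)) • tl (u (b w))) + (g (Sum.inr false) • 1 +
        g (Sum.inr true) • tl (u k)) = 0 := by
    rw [← hg, Fintype.sum_sum_type, Fintype.sum_prod_type]
    congr 1
    · refine sum_congr rfl (fun w _ => ?_)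
      rw [Fintype.sum_bool, add_comm]
    · rw [Fintype.sum_bool, add_comm]
  -- pairing with a matrix
  have hpair : ∀ N : Matrix (Fin 3) (Fin 3) ℂ,
      ∑ w : Fin 4, (g (Sum.inl (w, false)) * trace (tl (u (a w)) * N) +
      g (Sum.inl (w, true)) * trace (tl (u (b w)) * N)) + (g (Sum.inr false) * trace N +
        g (Sum.inr true) * trace (tl (u k) * N)) = 0 := by
    intro N
    have h1 := congrArg (fun Z => trace (Z * N)) hsum
    simp only [add_mul, sum_mul, smul_mul_assoc, trace_add, trace_sum, trace_smul, smul_eq_mul,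
      one_mul, zero_mul, trace_zero] at h1
    exact h1
  -- the coefficient of the identity
  have hid : g (Sum.inr false) = 0 := by
    have h1 := hpair 1
    simp only [mul_one, trace_tl (hu _), mul_zero, add_zero, sum_const_zero, zero_add,
      trace_one, Fintype.card_fin] at h1
    have : ((3 : ℕ) : ℂ) ≠ 0 := by norm_num
    exact (mul_eq_zero.mp h1).resolve_right this
  -- overlaps of the chosen vectors
  have hov : ∀ i j, c i ≠ c j → trace (tl (u i) * tl (u j)) = 0 := by
    intro i j hij
    rw [trace_tl_mul (hu i) (hu j), hcross i j hij]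
    simp
  have hself : ∀ i, trace (tl (u i) * tl (u i)) = ((1 - 1 / 3 : ℝ) : ℂ) := by
    intro i
    rw [trace_tl_mul (hu i) (hu i), ov_self (hu i)]
  -- the coefficients of the other classes
  have hoth : ∀ w : Fin 4, w ≠ v → g (Sum.inl (w, false)) = 0 ∧ g (Sum.inl (w, true)) = 0 := by
    intro w hw
    have h1 := hpair (tl (u (a w)))
    have h2 := hpair (tl (u (b w)))
    rw [hid, sum_eq_single w, hov k (a w) (by rw [ha w]; exact fun h => hw h.symm), hself,
      trace_tl_mul (hu (b w)) (hu (a w)), ov_comm (u (b w))] at h1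
    · rw [hid, sum_eq_single w, hov k (b w) (by rw [hb w]; exact fun h => hw h.symm), hself,
        trace_tl_mul (hu (a w)) (hu (b w))] at h2
      · refine solve_two (ov_nonneg (u (a w)) (u (b w))) (hne _ _ (hab w)) ?_ ?_
        · simpa using h1
        · simpa using h2
      · intro w' _ hw'
        rw [hov (a w') (b w) (by rw [ha, hb]; exact hw'), hov (b w') (b w)
          (by rw [hb, hb]; exact hw')]
        ring
      · intro h
        exact absurd (mem_univ w) h
    · intro w' _ hw'
      rw [hov (a w') (a w) (by rw [ha, ha]; exact hw'), hov (b w') (a w)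
        (by rw [hb, ha]; exact hw')]
      ring
    · intro h
      exact absurd (mem_univ w) h
  -- the relation inside the class of `k`
  have hrel : g (Sum.inl (v, false)) • tl (u (a v)) + g (Sum.inl (v, true)) • tl (u (b v)) +
      g (Sum.inr true) • tl (u k) = 0 := by
    rw [sum_eq_single v, hid, zero_smul, zero_add] at hsum
    · exact hsum
    · intro w _ hw
      rw [(hoth w hw).1, (hoth w hw).2, zero_smul, zero_smul, add_zero]
    · intro h
      exact absurd (mem_univ v) h
  have hk0 : g (Sum.inr true) ≠ 0 := by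
    intro h0
    rw [h0, zero_smul, add_zero] at hrel
    have h1 := congrArg (fun Z => trace (Z * tl (u (a v)))) hrel
    have h2 := congrArg (fun Z => trace (Z * tl (u (b v)))) hrel
    simp only [add_mul, smul_mul_assoc, trace_add, trace_smul, smul_eq_mul, zero_mul,
      trace_zero, hself] at h1 h2
    rw [trace_tl_mul (hu (b v)) (hu (a v)), ov_comm (u (b v))] at h1
    rw [trace_tl_mul (hu (a v)) (hu (b v))] at h2
    obtain ⟨e1, e2⟩ := solve_two (ov_nonneg (u (a v)) (u (b v))) (hne _ _ (hab v)) h1 h2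
    apply hz0
    match z0 with
    | Sum.inl (w, false) =>
      by_cases hw : w = v
      · rw [hw]; exact e1
      · exact (hoth w hw).1
    | Sum.inl (w, true) =>
      by_cases hw : w = v
      · rw [hw]; exact e2
      · exact (hoth w hw).2
    | Sum.inr false => exact hid
    | Sum.inr true => exact h0
  refine ⟨-(g (Sum.inl (v, false)) / g (Sum.inr true)),
    -(g (Sum.inl (v, true)) / g (Sum.inr true)), ?_⟩
  have h1 : g (Sum.inr true) • tl (u k) = -(g (Sum.inl (v, false)) • tl (u (a v)) +
      g (Sum.inl (v, true)) • tl (u (b v))) := eq_neg_of_add_eq_zero_right hrel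
  have h2 : tl (u k) = (g (Sum.inr true))⁻¹ • (g (Sum.inr true) • tl (u k)) := by
    rw [smul_smul, inv_mul_cancel₀ hk0, one_smul]
  rw [h2, h1, smul_neg, smul_add, smul_smul, smul_smul, neg_smul, neg_smul, div_eq_inv_mul,
    div_eq_inv_mul]
  abel

/-- A third line in the plane of two lines is orthogonal to both. -/
theorem orth_of_relation {ua ub uk : Fin 3 → ℂ} (hua : star ua ⬝ᵥ ua = 1)
    (hub : star ub ⬝ᵥ ub = 1) (huk : star uk ⬝ᵥ uk = 1) (hab : ov ua ub ≠ 1)
    (hak : ov ua uk ≠ 1) (hbk : ov ub uk ≠ 1) {x y : ℂ}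
    (h : tl uk = x • tl ua + y • tl ub) : ov ua uk = 0 ∧ ov ub uk = 0 := by
  -- the relation for projections
  have hpr : pr uk = x • pr ua + y • pr ub + ((1 - x - y) / 3) • 1 := by
    have h1 : pr uk = tl uk + (1 / 3 : ℂ) • 1 := by rw [tl]; abel
    rw [h1, h, tl, tl]
    module
  have happ : ∀ w : Fin 3 → ℂ, (star uk ⬝ᵥ w) • uk = (x * (star ua ⬝ᵥ w)) • ua +
      (y * (star ub ⬝ᵥ w)) • ub + ((1 - x - y) / 3) • w := by
    intro w
    have h1 := congrArg (fun Z => Z *ᵥ w) hpr
    simp only [add_mulVec, smul_mulVec, pr_mulVec, one_mulVec, smul_smul] at h1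
    exact h1
  have hli : LinearIndependent ℂ ![ua, ub] := by
    rw [LinearIndependent.pair_iff]
    intro s t hst
    by_contra hcon
    apply hab
    have key : ∀ {p q : Fin 3 → ℂ} {s t : ℂ}, star p ⬝ᵥ p = 1 → star q ⬝ᵥ q = 1 → s ≠ 0 →
        s • p + t • q = 0 → ov p q = 1 := by
      intro p q s t hp hq hs hpq
      have h1 : p = (-t / s) • q := by
        have h2 : s • p = -(t • q) := eq_neg_of_add_eq_zero_left hpq
        have h3 : p = s⁻¹ • (s • p) := by rw [smul_smul, inv_mul_cancel₀ hs, one_smul]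
        rw [h3, h2, smul_neg, smul_smul, neg_div, neg_smul, div_eq_inv_mul]
      have h4 : ‖-t / s‖ ^ 2 = 1 := by
        rw [h1, star_smul, smul_dotProduct, dotProduct_smul, hq] at hp
        simp only [smul_eq_mul, mul_one] at hp
        rw [Complex.star_def, Complex.conj_mul'] at hp
        exact_mod_cast hp
      unfold ov
      rw [h1, star_smul, smul_dotProduct, hq, smul_eq_mul, mul_one, norm_star, h4]
    by_cases hs : s = 0
    · have ht : t ≠ 0 := fun ht => hcon ⟨hs, ht⟩
      rw [ov_comm]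
      exact key hub hua ht (by rw [add_comm]; exact hst)
    · exact key hua hub hs hst
  obtain ⟨w, hw1, hwa, hwb⟩ := exists_orth ua ub hli
  have hw := happ w
  rw [hwa, hwb, mul_zero, mul_zero, zero_smul, zero_smul, zero_add, zero_add] at hw
  by_cases hz : (1 - x - y) / 3 = 0
  · exfalso
    -- `x = 0` and `y = 0`
    have hx : ∀ {p q : Fin 3 → ℂ} {x y : ℂ}, star p ⬝ᵥ p = 1 → star q ⬝ᵥ q = 1 → ov p q ≠ 1 →
        ov p uk ≠ 1 → (∀ w : Fin 3 → ℂ, (star uk ⬝ᵥ w) • uk = (x * (star p ⬝ᵥ w)) • p +
          (y * (star q ⬝ᵥ w)) • q) → x = 0 := by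
      intro p q x y hp hq hpq hpk hrel
      by_contra hx0
      set w' := p - (star q ⬝ᵥ p) • q with hw'
      have h1 : star q ⬝ᵥ w' = 0 := by
        rw [hw', dotProduct_sub, dotProduct_smul, hq]
        simp
      have h2 : star p ⬝ᵥ w' = ((1 - ov p q : ℝ) : ℂ) := by
        rw [hw', dotProduct_sub, dotProduct_smul, hp]
        have h3 : star q ⬝ᵥ p = star (star p ⬝ᵥ q) := by rw [star_dotProduct]
        rw [h3, smul_eq_mul, Complex.star_def, Complex.conj_mul']
        unfold ov
        push_cast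
        ring
      have h4 := hrel w'
      rw [h1, h2, mul_zero, zero_smul, add_zero] at h4
      have h5 : ((1 - ov p q : ℝ) : ℂ) ≠ 0 := by
        have : (1 - ov p q : ℝ) ≠ 0 := fun h => hpq (by linarith)
        exact_mod_cast this
      set z := x * ((1 - ov p q : ℝ) : ℂ) with hz'
      have hz0 : z ≠ 0 := mul_ne_zero hx0 h5
      apply hpk
      -- `p` is a multiple of `uk`
      have h6 : p = ((star uk ⬝ᵥ w') / z) • uk := by
        have h7 : p = z⁻¹ • (z • p) := by rw [smul_smul, inv_mul_cancel₀ hz0, one_smul]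
        rw [h7, ← h4, smul_smul, div_eq_inv_mul]
      have h8 : ‖(star uk ⬝ᵥ w') / z‖ ^ 2 = 1 := by
        rw [h6, star_smul, smul_dotProduct, dotProduct_smul, huk] at hp
        simp only [smul_eq_mul, mul_one] at hp
        rw [Complex.star_def, Complex.conj_mul'] at hp
        exact_mod_cast hp
      unfold ov
      rw [h6, star_smul, smul_dotProduct, huk, smul_eq_mul, mul_one, norm_star, h8]
    have hx0 : x = 0 := hx hua hub hab hak (fun w => by
      have := happ w
      rw [hz, zero_smul, add_zero] at this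
      exact this)
    have hy0 : y = 0 := hx hub hua (by rw [ov_comm]; exact hab) hbk (fun w => by
      have := happ w
      rw [hz, zero_smul, add_zero, add_comm] at this
      exact this)
    rw [hx0, hy0] at hz
    norm_num at hz
  · -- `uk` is a multiple of `w`
    have hw0 : star uk ⬝ᵥ w ≠ 0 := by
      intro h0
      rw [h0, zero_smul] at hw
      have h1 : w = 0 := (smul_eq_zero.mp hw.symm).resolve_left hz
      rw [h1] at hw1
      simp at hw1
    have h1 : uk = (((1 - x - y) / 3) / (star uk ⬝ᵥ w)) • w := by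
      have h2 : uk = (star uk ⬝ᵥ w)⁻¹ • ((star uk ⬝ᵥ w) • uk) := by
        rw [smul_smul, inv_mul_cancel₀ hw0, one_smul]
      rw [hw, smul_smul] at h2
      rw [div_eq_inv_mul]
      exact h2
    constructor
    · unfold ov
      rw [h1, dotProduct_smul, hwa]
      simp
    · unfold ov
      rw [h1, dotProduct_smul, hwb]
      simp

end Pool.Agent.H284_net
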