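import Mathlib
import Pool.Agent.H284_net.Ortho

/-!
# Four mutually unbiased bases of `ℂ ^ 3`: the numbers
-/

set_option autoImplicit false

open Matrix Finset

namespace Pool.Agent.H284_net

/-- The primitive third root of unity. -/
noncomputable def om : ℂ := Complex.exp (2 * (Real.pi : ℂ) * Complex.I / 3)

lemma om_prim : IsPrimitiveRoot om 3 := by
  have h := Complex.isPrimitiveRoot_exp 3 (by norm_num)
  unfold om
  simpa using h

lemma om_cube : om ^ 3 = 1 := om_prim.pow_eq_one

lemma om_sum : 1 + om + om ^ 2 = 0 := by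
  have h := om_prim.geom_sum_eq_zero (by norm_num)
  simpa [Finset.sum_range_succ] using h

lemma om_norm : ‖om‖ = 1 := by
  have h := congrArg norm om_cube
  rw [norm_pow, norm_one] at h
  exact (pow_eq_one_iff_of_nonneg (norm_nonneg _) (by norm_num)).mp h

lemma om_ne_one : om ≠ 1 := om_prim.ne_one (by norm_num)

lemma om_sq_ne_one : om ^ 2 ≠ 1 := by
  intro h
  have h1 := om_cube
  rw [pow_succ, h, one_mul] at h1
  exact om_ne_one h1

lemma conj_om : (starRingEnd ℂ) om = om ^ 2 := by
  have h1 : (starRingEnd ℂ) om * om = 1 := by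
    rw [Complex.conj_mul', om_norm]
    norm_num
  have h2 : om ^ 2 * om = 1 := by rw [← pow_succ, om_cube]
  have h3 : om ≠ 0 := by
    intro h
    rw [h, mul_zero] at h2
    exact zero_ne_one h2
  exact mul_right_cancel₀ h3 (h1.trans h2.symm)

/-- A cube root of unity. -/
lemma cube_cases {x : ℂ} (h : x ^ 3 = 1) : x = 1 ∨ x = om ∨ x = om ^ 2 := by
  have h1 : (x - 1) * (x - om) * (x - om ^ 2) = 0 := by
    have h2 : (x - 1) * (x - om) * (x - om ^ 2) = x ^ 3 - om ^ 3 -
        x * (x - om) * (1 + om + om ^ 2) := by ring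
    have h3 := om_cube
    rw [h2, om_sum, h, h3]
    ring
  rcases mul_eq_zero.mp h1 with h2 | h2
  · rcases mul_eq_zero.mp h2 with h3 | h3
    · exact Or.inl (sub_eq_zero.mp h3)
    · exact Or.inr (Or.inl (sub_eq_zero.mp h3))
  · exact Or.inr (Or.inr (sub_eq_zero.mp h2))

/-- Three unimodular numbers with sum zero: the ratios are the primitive roots. -/
lemma sum_zero_cases {a b : ℂ} (ha : ‖a‖ = 1) (hb : ‖b‖ = 1) (h : 1 + a + b = 0) :
    (a = om ∧ b = om ^ 2) ∨ (a = om ^ 2 ∧ b = om) := by
  have ha' : (starRingEnd ℂ) a * a = 1 := by rw [Complex.conj_mul', ha]; norm_num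
  have hb' : (starRingEnd ℂ) b * b = 1 := by rw [Complex.conj_mul', hb]; norm_num
  have hc : 1 + (starRingEnd ℂ) a + (starRingEnd ℂ) b = 0 := by
    have := congrArg (starRingEnd ℂ) h
    simpa using this
  have hbe : b = -1 - a := by linear_combination h
  -- `a * b = 1`
  have hab : a * b = 1 := by
    have h1 : a * b + b + a = 0 := by
      linear_combination (a * b) * hc - b * ha' - a * hb'
    linear_combination h1 - h
  have h3 : a ^ 3 = 1 := by
    rw [hbe] at hab
    linear_combination (1 - a) * hab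
  rcases cube_cases h3 with h4 | h4 | h4
  · exfalso
    rw [h4] at hab h
    have : (3 : ℂ) = 0 := by linear_combination h - hab
    norm_num at this
  · left
    refine ⟨h4, ?_⟩
    rw [hbe, h4]
    linear_combination -om_sum
  · right
    refine ⟨h4, ?_⟩
    rw [hbe, h4]
    linear_combination -om_sum

lemma norm_sq_three {a b : ℂ} (ha : ‖a‖ = 1) (hb : ‖b‖ = 1) :
    ‖1 + a + b‖ ^ 2 = 3 + 2 * (a + (starRingEnd ℂ) b + (starRingEnd ℂ) a * b).re := by
  have ha' : a.re * a.re + a.im * a.im = 1 := by
    rw [← Complex.normSq_apply, Complex.normSq_eq_norm_sq, ha]; norm_num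
  have hb' : b.re * b.re + b.im * b.im = 1 := by
    rw [← Complex.normSq_apply, Complex.normSq_eq_norm_sq, hb]; norm_num
  rw [← Complex.normSq_eq_norm_sq, Complex.normSq_apply]
  simp only [Complex.add_re, Complex.add_im, Complex.one_re, Complex.one_im, Complex.mul_re,
    Complex.conj_re, Complex.conj_im]
  linear_combination ha' + hb'

/-- Vectors unbiased to the Fourier basis and the standard basis. -/
lemma unbiased_cases {a b : ℂ} (ha : ‖a‖ = 1) (hb : ‖b‖ = 1) (h1 : ‖1 + a + b‖ ^ 2 = 3)
    (h2 : ‖1 + om ^ 2 * a + om * b‖ ^ 2 = 3) :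
    ∃ s : Fin 3, ∃ k : Fin 4, (k = 1 ∨ k = 2) ∧ a = om ^ (s : ℕ) ∧
      b = om ^ ((k : ℕ) + 2 * (s : ℕ)) := by
  have ha' : (starRingEnd ℂ) a * a = 1 := by rw [Complex.conj_mul', ha]; norm_num
  have hb' : (starRingEnd ℂ) b * b = 1 := by rw [Complex.conj_mul', hb]; norm_num
  obtain ⟨z, hz⟩ : ∃ z, z = a + (starRingEnd ℂ) b + (starRingEnd ℂ) a * b := ⟨_, rfl⟩
  have hz1 : z.re = 0 := by
    rw [norm_sq_three ha hb, ← hz] at h1
    linarith
  have hz2 : (om ^ 2 * z).re = 0 := by
    rw [norm_sq_three (by rw [norm_mul, norm_pow, om_norm, ha]; norm_num)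
      (by rw [norm_mul, om_norm, hb]; norm_num)] at h2
    have h3 : om ^ 2 * a + (starRingEnd ℂ) (om * b) + (starRingEnd ℂ) (om ^ 2 * a) * (om * b) =
        om ^ 2 * z := by
      rw [map_mul, map_mul, map_pow, conj_om, hz]
      have h4 : (om ^ 2) ^ 2 = om := by
        calc (om ^ 2) ^ 2 = om ^ 3 * om := by ring
          _ = om := by rw [om_cube, one_mul]
      rw [h4]
      ring
    rw [h3] at h2
    linarith
  have hzim : z.im = 0 := by
    rw [Complex.mul_re, hz1, mul_zero, zero_sub, neg_eq_zero] at hz2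
    rcases mul_eq_zero.mp hz2 with h3 | h3
    · exfalso
      -- `om ^ 2` is not real
      have h4 : om ^ 2 = (starRingEnd ℂ) (om ^ 2) := by
        apply Complex.ext
        · rw [Complex.conj_re]
        · rw [Complex.conj_im, h3, neg_zero]
      rw [map_pow, conj_om] at h4
      have h5 : om ^ 2 = om := by
        calc om ^ 2 = (om ^ 2) ^ 2 := h4
          _ = om ^ 3 * om := by ring
          _ = om := by rw [om_cube, one_mul]
      have h6 : om ≠ 0 := by
        intro h
        have := om_norm
        rw [h, norm_zero] at this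
        norm_num at this
      apply om_ne_one
      have h7 : om * om = 1 * om := by rw [← sq, h5, one_mul]
      exact mul_right_cancel₀ h6 h7
    · exact h3
  have hz0 : z = 0 := Complex.ext hz1 hzim
  rw [hz0] at hz
  -- the sum of the products
  have hconj : (starRingEnd ℂ) a + b + a * (starRingEnd ℂ) b = 0 := by
    have := congrArg (starRingEnd ℂ) hz.symm
    simpa using this
  have e2 : a * (starRingEnd ℂ) b + b + (starRingEnd ℂ) a = 0 := by linear_combination hconj
  have a3 : a ^ 3 = 1 := by
    linear_combination (-a ^ 2) * hz - a * e2 - a * (starRingEnd ℂ) a * hb' - a * b * ha' +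
      b * (starRingEnd ℂ) b * ha' + hb'
  have b3 : b ^ 3 = 1 := by
    linear_combination b ^ 2 * e2 + b * hz - b * a * hb' - b * (starRingEnd ℂ) b * ha' +
      b * (starRingEnd ℂ) b * ha' + hb'
  have hab : a * b ≠ 1 := by
    intro h
    have hbA : b = (starRingEnd ℂ) a := by
      linear_combination (-b) * ha' + (starRingEnd ℂ) a * h
    have hbA' : (starRingEnd ℂ) b = a := by rw [hbA, Complex.conj_conj]
    rw [hbA', hbA] at hz
    have h3 : (starRingEnd ℂ) a * (starRingEnd ℂ) a = -2 * a := by linear_combination -hz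
    have h4 := congrArg norm h3
    rw [norm_mul, norm_mul, RCLike.norm_conj, ha] at h4
    norm_num at h4
  have o3 := om_cube
  rcases cube_cases a3 with h3 | h3 | h3 <;> rcases cube_cases b3 with h4 | h4 | h4
  · exact absurd (by rw [h3, h4, one_mul]) hab
  · exact ⟨0, 1, Or.inl rfl, by rw [h3]; simp, by rw [h4]; simp⟩
  · exact ⟨0, 2, Or.inr rfl, by rw [h3]; simp, by rw [h4]; simp⟩
  · exact ⟨1, 1, Or.inl rfl, by rw [h3]; simp, by
      rw [h4]
      simp only [Fin.val_one, mul_one]
      exact o3.symm⟩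
  · exact ⟨1, 2, Or.inr rfl, by rw [h3]; simp, by
      rw [h4]
      simp only [Fin.val_one, Fin.val_two, mul_one]
      linear_combination (-om) * o3⟩
  · exact absurd (by rw [h3, h4, ← pow_succ', o3]) hab
  · exact ⟨2, 2, Or.inr rfl, by rw [h3]; simp, by
      rw [h4]
      simp only [Fin.val_two]
      linear_combination (-om ^ 3 - 1) * o3⟩
  · exact absurd (by rw [h3, h4, ← pow_succ, o3]) hab
  · exact ⟨2, 1, Or.inl rfl, by rw [h3]; simp, by
      rw [h4]
      simp only [Fin.val_one, Fin.val_two]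
      linear_combination (-om ^ 2) * o3⟩

end Pool.Agent.H284_net
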