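import Mathlib
import Pool.Agent.H284_net.Mub

/-!
# A non-local 4-multinet is a net; overlaps are one third; classes are orthonormal bases
-/

set_option autoImplicit false

open Matrix Finset
open Pool.Agent.H284_beta

namespace Pool.Agent.H284_net

section quad
variable {ι : Type*}

lemma quad_pr (x y : Fin 3 → ℂ) : star x ⬝ᵥ (pr y *ᵥ x) = (ov y x : ℂ) := by
  rw [pr_mulVec, dotProduct_smul, smul_eq_mul]
  have h : star x ⬝ᵥ y = star (star y ⬝ᵥ x) := by rw [star_dotProduct]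
  rw [h, Complex.star_def, Complex.mul_conj', ov]
  push_cast
  rfl

lemma quad_ns (u : ι → Fin 3 → ℂ) (m : ι → ℝ) (s : Finset ι) (x : Fin 3 → ℂ) :
    star x ⬝ᵥ (ns u m s *ᵥ x) = ((∑ i ∈ s, m i * ov (u i) x : ℝ) : ℂ) := by
  rw [ns, sum_mulVec, dotProduct_sum]
  push_cast
  refine sum_congr rfl (fun i _ => ?_)
  rw [smul_mulVec, dotProduct_smul, quad_pr, smul_eq_mul]

end quad

variable {ι : Type*} [Fintype ι] [DecidableEq ι]
variable {f : ι → (Fin 3 → ℂ)} {c : ι → Fin 4} {m : ι → ℕ} {d : ℕ}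

/-- The metric data of a `4`-multinet in isotropic position. -/
structure Good (f : ι → (Fin 3 → ℂ)) (c : ι → Fin 4) (B : Matrix (Fin 3) (Fin 3) ℂ) (s : ι → ℝ)
    (u : ι → Fin 3 → ℂ) : Prop where
  det : IsUnit B.det
  pos : ∀ i, 0 < s i
  def_u : ∀ i, u i = (s i : ℂ) • (B *ᵥ f i)
  unit : ∀ i, star (u i) ⬝ᵥ u i = 1
  net : ∀ i j, c i ≠ c j → ∀ v, ∃! k, k ∈ vecLine f i j ∧ c k = v
  classSum : ∀ v j, 3 * ∑ i ∈ univ.filter (fun i => c i = v), ov (u i) (u j) =
    ((univ.filter (fun i => c i = v)).card : ℝ)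
  flatSum : ∀ i j, c i ≠ c j → ∀ k ∈ vecLine f i j, ∑ l ∈ vecLine f i j, ov (u l) (u k) = 2

theorem MNet.good (h : MNet f c m d) :
    (∃ μ, 0 < μ ∧ (∀ i, m i = μ)) ∧ ∃ B s u, Good f c B s u := by
  classical
  obtain ⟨B, s, hB, hs0, hu, hcl, hfl, huniq⟩ := h.core
  have hnet : ∀ i j, c i ≠ c j → ∀ v, ∃! k, k ∈ vecLine f i j ∧ c k = v := by
    intro i j hij v
    have hX := h.line_mem_flats hij
    have h1 : 0 < ∑ k ∈ (vecLine f i j).filter (fun k => c k = v), m k := by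
      rw [h.base i j hij v (c i)]
      exact lt_of_lt_of_le (h.pos i) (single_le_sum (f := m) (fun _ _ => Nat.zero_le _)
        (mem_filter.mpr ⟨h.linSp.left_mem i j (ne_of_class hij), rfl⟩))
    obtain ⟨k, hk⟩ : ((vecLine f i j).filter (fun k => c k = v)).Nonempty := by
      by_contra hcon
      rw [not_nonempty_iff_eq_empty] at hcon
      rw [hcon, sum_empty] at h1
      exact lt_irrefl _ h1
    rw [mem_filter] at hk
    refine ⟨k, hk, fun k' hk' => ?_⟩
    exact huniq _ hX k' hk'.1 k hk.1 (hk'.2.trans hk.2.symm)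
  have hmult : ∀ X ∈ flats f c, ∀ i ∈ X, m i = mult c m X := by
    intro X hX i hi
    rw [← h.sum_class hX (c i)]
    have h1 : X.filter (fun k => c k = c i) = {i} := by
      ext k
      simp only [mem_filter, mem_singleton]
      constructor
      · rintro ⟨h1, h2⟩
        exact huniq X hX k h1 i hi h2
      · rintro rfl
        exact ⟨hi, rfl⟩
    rw [h1, sum_singleton]
  have hcross : ∀ i j, c i ≠ c j → m i = m j := by
    intro i j hij
    have hX := h.line_mem_flats hij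
    rw [hmult _ hX i (h.linSp.left_mem i j (ne_of_class hij)),
      hmult _ hX j (h.linSp.right_mem i j (ne_of_class hij))]
  have hexc : ∀ v : Fin 4, ∃ j, c j = v := by
    intro v
    by_contra hcon
    push Not at hcon
    have h1 := h.total v
    rw [sum_eq_zero] at h1
    · have := h.d_pos
      omega
    · intro k hk
      exact absurd (mem_filter.mp hk).2 (hcon k)
  have heq : ∀ i j, m i = m j := by
    intro i j
    by_cases hij : c i = c j
    · obtain ⟨w, hw⟩ : ∃ w : Fin 4, w ≠ c i := exists_ne (c i)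
      obtain ⟨k, hk⟩ := hexc w
      rw [hcross i k (by rw [hk]; exact hw.symm), hcross j k (by rw [hk, ← hij]; exact hw.symm)]
    · exact hcross i j hij
  obtain ⟨i0, _⟩ := hexc 0
  have hμ : ∀ i, m i = m i0 := fun i => heq i i0
  have hμpos := h.pos i0
  have hμR : (0 : ℝ) < m i0 := by exact_mod_cast hμpos
  refine ⟨⟨m i0, hμpos, hμ⟩, B, s, fun i => (s i : ℂ) • (B *ᵥ f i), ?_⟩
  refine ⟨hB, hs0, fun i => rfl, hu, hnet, fun v j => ?_, fun i j hij k hk => ?_⟩
  · have h1 := congrArg (fun M => star ((s j : ℂ) • (B *ᵥ f j)) ⬝ᵥ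
      (M *ᵥ ((s j : ℂ) • (B *ᵥ f j)))) (hcl v)
    rw [quad_ns, smul_mulVec, one_mulVec, dotProduct_smul, hu, smul_eq_mul, mul_one] at h1
    have h2 : ∑ i ∈ univ.filter (fun i => c i = v), (m i : ℝ) *
        ov ((s i : ℂ) • (B *ᵥ f i)) ((s j : ℂ) • (B *ᵥ f j)) = (d : ℝ) / 3 := by
      exact_mod_cast h1
    have h3 : ∑ i ∈ univ.filter (fun i => c i = v), (m i : ℝ) *
        ov ((s i : ℂ) • (B *ᵥ f i)) ((s j : ℂ) • (B *ᵥ f j)) =
        (m i0 : ℝ) * ∑ i ∈ univ.filter (fun i => c i = v),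
          ov ((s i : ℂ) • (B *ᵥ f i)) ((s j : ℂ) • (B *ᵥ f j)) := by
      rw [mul_sum]
      refine sum_congr rfl (fun i _ => ?_)
      rw [hμ i]
    have h4 : (d : ℝ) = ((univ.filter (fun i => c i = v)).card : ℝ) * (m i0 : ℝ) := by
      rw [← h.total v]
      push_cast
      rw [sum_congr rfl (fun i _ => by rw [hμ i]), sum_const, nsmul_eq_mul]
    rw [h3, h4] at h2
    have h5 : (m i0 : ℝ) * (3 * ∑ i ∈ univ.filter (fun i => c i = v),
          ov ((s i : ℂ) • (B *ᵥ f i)) ((s j : ℂ) • (B *ᵥ f j))) =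
        (m i0 : ℝ) * ((univ.filter (fun i => c i = v)).card : ℝ) := by
      linarith
    exact mul_left_cancel₀ hμR.ne' h5
  · have hX := h.line_mem_flats hij
    obtain ⟨p, hp1, hp2, hp3⟩ := hfl _ hX
    have h1 := congrArg (fun M => star ((s k : ℂ) • (B *ᵥ f k)) ⬝ᵥ
      (M *ᵥ ((s k : ℂ) • (B *ᵥ f k)))) hp3
    have hpk : ov p ((s k : ℂ) • (B *ᵥ f k)) = 0 := by
      rw [ov_comm]
      unfold ov
      rw [hp2 k hk]
      simp
    rw [quad_ns, smul_mulVec, sub_mulVec, one_mulVec, dotProduct_smul, dotProduct_sub, hu,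
      quad_pr, hpk, smul_eq_mul] at h1
    have h2 : ∑ l ∈ vecLine f i j, (m l : ℝ) *
        ov ((s l : ℂ) • (B *ᵥ f l)) ((s k : ℂ) • (B *ᵥ f k)) =
        2 * mult c m (vecLine f i j) := by
      have h3 : ((∑ l ∈ vecLine f i j, (m l : ℝ) *
        ov ((s l : ℂ) • (B *ᵥ f l)) ((s k : ℂ) • (B *ᵥ f k)) : ℝ) : ℂ) =
        ((2 * mult c m (vecLine f i j) : ℝ) : ℂ) := by
        rw [h1]
        push_cast
        ring
      exact_mod_cast h3
    rw [← hmult _ hX i (h.linSp.left_mem i j (ne_of_class hij)), hμ i] at h2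
    have h3 : ∑ l ∈ vecLine f i j, (m l : ℝ) *
        ov ((s l : ℂ) • (B *ᵥ f l)) ((s k : ℂ) • (B *ᵥ f k)) =
        (m i0 : ℝ) * ∑ l ∈ vecLine f i j,
          ov ((s l : ℂ) • (B *ᵥ f l)) ((s k : ℂ) • (B *ᵥ f k)) := by
      rw [mul_sum]
      refine sum_congr rfl (fun i _ => ?_)
      rw [hμ i]
    rw [h3] at h2
    have h5 : (m i0 : ℝ) * ∑ l ∈ vecLine f i j,
          ov ((s l : ℂ) • (B *ᵥ f l)) ((s k : ℂ) • (B *ᵥ f k)) = (m i0 : ℝ) * 2 := by
      linarith
    exact mul_left_cancel₀ hμR.ne' h5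

end Pool.Agent.H284_net
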