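import Mathlib
import Pool.Agent.H284_net.Net

/-!
# Overlaps between different classes are one third
-/

set_option autoImplicit false

open Matrix Finset
open Pool.Agent.H284_beta

namespace Pool.Agent.H284_net

variable {ι : Type*} [Fintype ι] [DecidableEq ι]
variable {f : ι → (Fin 3 → ℂ)} {c : ι → Fin 4} {B : Matrix (Fin 3) (Fin 3) ℂ} {s : ι → ℝ}
  {u : ι → Fin 3 → ℂ}

lemma Good.ov_ne_one (h : Good f c B s u) (hf : ∀ i j, i ≠ j → LinearIndependent ℂ ![f i, f j])
    {i j : ι} (hij : i ≠ j) : ov (u i) (u j) ≠ 1 := by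
  intro h1
  have h2 := eq_smul_of_ov_eq_one (h.unit i) (h.unit j) h1
  have h3 : (s i : ℂ) ≠ 0 := by exact_mod_cast (h.pos i).ne'
  have h4 : (s j : ℂ) ≠ 0 := by exact_mod_cast (h.pos j).ne'
  have h5 := pair_smul (pair_map h.det (hf i j hij)) h3 h4
  rw [← h.def_u i, ← h.def_u j, LinearIndependent.pair_iff] at h5
  have h6 := h5 (star (u i) ⬝ᵥ u j) (-1) (by rw [← h2]; simp)
  norm_num at h6

/-- The four lines of a base flat. -/
lemma Good.flat_eq (h : Good f c B s u) (hf : ∀ i j, i ≠ j → LinearIndependent ℂ ![f i, f j])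
    {k : Fin 4 → ι} (hk : ∀ v, c (k v) = v) (hm : ∀ v, k v ∈ vecLine f (k 0) (k 1)) :
    vecLine f (k 0) (k 1) = univ.image k := by
  have h01 : c (k 0) ≠ c (k 1) := by rw [hk, hk]; decide
  ext l
  simp only [mem_image, mem_univ, true_and]
  constructor
  · intro hl
    exact ⟨c l, (h.net (k 0) (k 1) h01 (c l)).unique ⟨hm _, hk _⟩ ⟨hl, rfl⟩⟩
  · rintro ⟨v, rfl⟩
    exact hm v

lemma Good.flat_sum (h : Good f c B s u) (hf : ∀ i j, i ≠ j → LinearIndependent ℂ ![f i, f j])
    {k : Fin 4 → ι} (hk : ∀ v, c (k v) = v) (hm : ∀ v, k v ∈ vecLine f (k 0) (k 1)) (v : Fin 4) :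
    ov (u (k 0)) (u (k v)) + ov (u (k 1)) (u (k v)) + ov (u (k 2)) (u (k v)) +
      ov (u (k 3)) (u (k v)) = 2 := by
  have h01 : c (k 0) ≠ c (k 1) := by rw [hk, hk]; decide
  have hinj : Function.Injective k := by
    intro a b hab
    have := congrArg c hab
    rwa [hk, hk] at this
  have h1 := h.flatSum (k 0) (k 1) h01 (k v) (hm v)
  rw [h.flat_eq hf hk hm, sum_image (fun a _ b _ hab => hinj hab), Fin.sum_univ_four] at h1
  exact h1

/-- The six overlaps at a base point do not depend on the base point. -/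
theorem Good.const (h : Good f c B s u) (hf : ∀ i j, i ≠ j → LinearIndependent ℂ ![f i, f j]) :
    ∃ a b e : ℝ, ∀ k : Fin 4 → ι, (∀ v, c (k v) = v) → (∀ v, k v ∈ vecLine f (k 0) (k 1)) →
      ov (u (k 0)) (u (k 1)) = a ∧ ov (u (k 2)) (u (k 3)) = a ∧
      ov (u (k 0)) (u (k 2)) = b ∧ ov (u (k 1)) (u (k 3)) = b ∧
      ov (u (k 0)) (u (k 3)) = e ∧ ov (u (k 1)) (u (k 2)) = e := by
  obtain ⟨β, hβ0, hβ⟩ := pencil hf h.net (p := 0) (q := 1) (w := 2) (by decide) (by decide)
    (by decide)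
  obtain ⟨α, hα0, hα⟩ := pencil hf h.net (p := 1) (q := 0) (w := 2) (by decide) (by decide)
    (by decide)
  obtain ⟨δ, hδ0, hδ⟩ := pencil hf h.net (p := 0) (q := 1) (w := 3) (by decide) (by decide)
    (by decide)
  obtain ⟨γ, hγ0, hγ⟩ := pencil hf h.net (p := 1) (q := 0) (w := 3) (by decide) (by decide)
    (by decide)
  set S := ‖α * δ - β * γ‖ + ‖β * γ‖ + ‖α * δ‖ with hS
  have hSpos : 0 < S := by
    have h1 : 0 < ‖β * γ‖ := norm_pos_iff.mpr (mul_ne_zero hβ0 hγ0)
    positivity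
  refine ⟨1 - 2 * ‖α * δ - β * γ‖ / S, 1 - 2 * ‖β * γ‖ / S, 1 - 2 * ‖α * δ‖ / S,
    fun k hk hm => ?_⟩
  have h01 : c (k 0) ≠ c (k 1) := by rw [hk, hk]; decide
  have hne01 : k 0 ≠ k 1 := fun h' => h01 (by rw [h'])
  -- the base point
  set x := crossProduct (f (k 0)) (f (k 1)) with hx
  have hx0 : x ≠ 0 := by
    rw [hx, crossProduct_ne_zero_iff_linearIndependent]
    exact hf _ _ hne01
  have hxa : f (k 0) ⬝ᵥ x = 0 := dot_self_cross _ _
  have hxb : f (k 1) ⬝ᵥ x = 0 := dot_cross_self _ _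
  have hs : ∀ v, (s (k v) : ℂ) ≠ 0 := fun v => by exact_mod_cast (h.pos (k v)).ne'
  -- the relations
  have hrel : ∀ v : Fin 4, ∀ α' β' : ℂ,
      (∀ i j l, c i = 1 → c j = 0 → c l = v → ∀ s t : ℂ, f l = s • f i + t • f j → ∀ x, x ≠ 0 →
        f i ⬝ᵥ x = 0 → f j ⬝ᵥ x = 0 → rest f c v x * t = α' * rest f c 0 x) →
      (∀ i j l, c i = 0 → c j = 1 → c l = v → ∀ s t : ℂ, f l = s • f i + t • f j → ∀ x, x ≠ 0 →
        f i ⬝ᵥ x = 0 → f j ⬝ᵥ x = 0 → rest f c v x * t = β' * rest f c 1 x) →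
      (rest f c v x / s (k v)) • u (k v) = α' • ((rest f c 0 x / s (k 0)) • u (k 0)) +
        β' • ((rest f c 1 x / s (k 1)) • u (k 1)) := by
    intro v α' β' h1 h2
    have h3 := hm v
    rw [mem_vecLine, Submodule.mem_span_pair] at h3
    obtain ⟨p, q, hpq⟩ := h3
    have e1 := h1 (k 1) (k 0) (k v) (hk 1) (hk 0) (hk v) q p (by rw [← hpq, add_comm]) x hx0 hxb hxa
    have e2 := h2 (k 0) (k 1) (k v) (hk 0) (hk 1) (hk v) p q hpq.symm x hx0 hxa hxb
    have hB : B *ᵥ f (k v) = p • (B *ᵥ f (k 0)) + q • (B *ᵥ f (k 1)) := by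
      rw [← hpq, mulVec_add, mulVec_smul, mulVec_smul]
    have key : ∀ w, (rest f c w x / s (k w)) • u (k w) = rest f c w x • (B *ᵥ f (k w)) := by
      intro w
      rw [h.def_u, smul_smul, div_mul_cancel₀ _ (hs w)]
    rw [key v, key 0, key 1, smul_smul, smul_smul, ← e1, ← e2, hB, smul_add, smul_smul,
      smul_smul]
  have r2 := hrel 2 α β hα hβ
  have r3 := hrel 3 γ δ hγ hδ
  have hfs := h.flat_sum hf hk hm
  have hself : ∀ v, ov (u (k v)) (u (k v)) = 1 := fun v => ov_self (h.unit (k v))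
  have q0 := hfs 0
  have q1 := hfs 1
  have q2 := hfs 2
  have q3 := hfs 3
  rw [hself, ov_comm (u (k 1)), ov_comm (u (k 2)), ov_comm (u (k 3))] at q0
  rw [hself, ov_comm (u (k 2)), ov_comm (u (k 3))] at q1
  rw [hself, ov_comm (u (k 3))] at q2
  rw [hself] at q3
  have hne : ∀ v, rest f c v x / s (k v) ≠ 0 := fun v => div_ne_zero (rest_ne_zero _ _ _ _) (hs v)
  obtain ⟨f1, f2, f3, f4, f5, f6⟩ := overlap_formula (h.unit (k 0)) (h.unit (k 1)) (h.unit (k 2))
    (h.unit (k 3)) (hne 0) (hne 1) (hne 2) (hne 3) r2 r3 (by linarith) (by linarith) (by linarith)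
    (by linarith)
  rw [← hS] at f1 f2 f3
  have g1 : ov (u (k 0)) (u (k 1)) = 1 - 2 * ‖α * δ - β * γ‖ / S := by
    field_simp
    linarith
  have g2 : ov (u (k 0)) (u (k 2)) = 1 - 2 * ‖β * γ‖ / S := by
    field_simp
    linarith
  have g3 : ov (u (k 0)) (u (k 3)) = 1 - 2 * ‖α * δ‖ / S := by
    field_simp
    linarith
  exact ⟨g1, by rw [f4, g1], g2, by rw [f5, g2], g3, by rw [f6, g3]⟩

/-- Through two lines of different classes there is a full base flat. -/
lemma Good.exists_flat (h : Good f c B s u)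
    (hf : ∀ i j, i ≠ j → LinearIndependent ℂ ![f i, f j]) {i j : ι} (hij : c i ≠ c j) :
    ∃ k : Fin 4 → ι, (∀ v, c (k v) = v) ∧ (∀ v, k v ∈ vecLine f (k 0) (k 1)) ∧
      k (c i) = i ∧ k (c j) = j := by
  have hL := isLinSp_vecLine f hf
  have hne : i ≠ j := fun h' => hij (by rw [h'])
  choose k hk _ using fun v => h.net i j hij v
  have hkm : ∀ v, k v ∈ vecLine f i j := fun v => (hk v).1
  have hkc : ∀ v, c (k v) = v := fun v => (hk v).2
  have hne01 : k 0 ≠ k 1 := by
    intro h'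
    have := congrArg c h'
    rw [hkc, hkc] at this
    exact absurd this (by decide)
  refine ⟨k, hkc, fun v => ?_, ?_, ?_⟩
  · rw [hL.eq_of_mem i j (k 0) (k 1) hne hne01 (hkm 0) (hkm 1)]
    exact hkm v
  · exact (h.net i j hij (c i)).unique ⟨hkm _, hkc _⟩ ⟨hL.left_mem i j hne, rfl⟩
  · exact (h.net i j hij (c j)).unique ⟨hkm _, hkc _⟩ ⟨hL.right_mem i j hne, rfl⟩

/-- All overlaps between different classes are one third. -/
theorem Good.third (h : Good f c B s u) (hf : ∀ i j, i ≠ j → LinearIndependent ℂ ![f i, f j])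
    (hex : ∀ v, ∃ i, c i = v) : ∀ i j, c i ≠ c j → ov (u i) (u j) = 1 / 3 := by
  obtain ⟨a, b, e, hconst⟩ := h.const hf
  -- a common overlap between the classes `v` and `w` is one third
  have key : ∀ (v w : Fin 4) (t : ℝ), v ≠ w →
      (∀ i j, c i = v → c j = w → ov (u i) (u j) = t) → t = 1 / 3 := by
    intro v w t _ ht
    obtain ⟨j, hj⟩ := hex w
    obtain ⟨i0, hi0⟩ := hex v
    have h1 := h.classSum v j
    have h2 : ∑ i ∈ univ.filter (fun i => c i = v), ov (u i) (u j) =
        ((univ.filter (fun i => c i = v)).card : ℝ) * t := by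
      rw [sum_congr rfl (fun i hi => ht i j (mem_filter.mp hi).2 hj), sum_const, nsmul_eq_mul]
    rw [h2] at h1
    have h3 : 0 < (univ.filter (fun i => c i = v)).card :=
      card_pos.mpr ⟨i0, mem_filter.mpr ⟨mem_univ _, hi0⟩⟩
    have h4 : (0 : ℝ) < ((univ.filter (fun i => c i = v)).card : ℝ) := by exact_mod_cast h3
    have h5 : ((univ.filter (fun i => c i = v)).card : ℝ) * (3 * t) =
        ((univ.filter (fun i => c i = v)).card : ℝ) * 1 := by linarith
    have h6 := mul_left_cancel₀ h4.ne' h5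
    linarith
  have ha : a = 1 / 3 := key 0 1 a (by decide) (fun i j hi hj => by
    obtain ⟨k, hk, hm, h1, h2⟩ := h.exists_flat hf (i := i) (j := j) (by rw [hi, hj]; decide)
    rw [hi] at h1
    rw [hj] at h2
    have := (hconst k hk hm).1
    rwa [h1, h2] at this)
  have hb : b = 1 / 3 := key 0 2 b (by decide) (fun i j hi hj => by
    obtain ⟨k, hk, hm, h1, h2⟩ := h.exists_flat hf (i := i) (j := j) (by rw [hi, hj]; decide)
    rw [hi] at h1
    rw [hj] at h2
    have := (hconst k hk hm).2.2.1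
    rwa [h1, h2] at this)
  have he : e = 1 / 3 := key 0 3 e (by decide) (fun i j hi hj => by
    obtain ⟨k, hk, hm, h1, h2⟩ := h.exists_flat hf (i := i) (j := j) (by rw [hi, hj]; decide)
    rw [hi] at h1
    rw [hj] at h2
    have := (hconst k hk hm).2.2.2.2.1
    rwa [h1, h2] at this)
  intro i j hij
  obtain ⟨k, hk, hm, h1, h2⟩ := h.exists_flat hf hij
  obtain ⟨g1, g2, g3, g4, g5, g6⟩ := hconst k hk hm
  rw [ha] at g1 g2
  rw [hb] at g3 g4
  rw [he] at g5 g6
  have hall : ∀ v w : Fin 4, v ≠ w → ov (u (k v)) (u (k w)) = 1 / 3 := by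
    intro v w hvw
    fin_cases v <;> fin_cases w
    · exact absurd rfl hvw
    · exact g1
    · exact g3
    · exact g5
    · rw [ov_comm]; exact g1
    · exact absurd rfl hvw
    · exact g6
    · exact g4
    · rw [ov_comm]; exact g3
    · rw [ov_comm]; exact g6
    · exact absurd rfl hvw
    · exact g2
    · rw [ov_comm]; exact g5
    · rw [ov_comm]; exact g4
    · rw [ov_comm]; exact g2
    · exact absurd rfl hvw
  have := hall (c i) (c j) hij
  rwa [h1, h2] at this

/-- Two different lines of one class are orthogonal. -/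
theorem Good.orth (h : Good f c B s u) (hf : ∀ i j, i ≠ j → LinearIndependent ℂ ![f i, f j])
    (htwo : ∀ v, ∃ i j, i ≠ j ∧ c i = v ∧ c j = v) :
    ∀ i j, i ≠ j → c i = c j → ov (u i) (u j) = 0 := by
  have hex : ∀ v, ∃ i, c i = v := fun v => by
    obtain ⟨i, _, _, hi, _⟩ := htwo v
    exact ⟨i, hi⟩
  have hthird := h.third hf hex
  have hne : ∀ i j, i ≠ j → ov (u i) (u j) ≠ 1 := fun i j hij => h.ov_ne_one hf hij
  intro i j hij hcij
  -- a third line in the class
  obtain ⟨k, hki, hkj, hck⟩ : ∃ k, k ≠ i ∧ k ≠ j ∧ c k = c i := by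
    by_contra hcon
    push Not at hcon
    have h1 : univ.filter (fun l => c l = c i) = {i, j} := by
      ext l
      simp only [mem_filter, mem_univ, true_and, mem_insert, mem_singleton]
      constructor
      · intro hl
        by_contra hl2
        push Not at hl2
        exact hcon l hl2.1 hl2.2 hl
      · rintro (rfl | rfl)
        · rfl
        · exact hcij.symm
    have h2 := h.classSum (c i) i
    rw [h1, sum_pair hij, card_pair hij, ov_self (h.unit i)] at h2
    have h3 := ov_nonneg (u j) (u i)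
    norm_num at h2
    linarith
  choose a b hab ha hb using htwo
  -- the chosen pair in the class of `i` is `(i, k)`
  have h1 := exists_relation u c h.unit hthird hne (Function.update a (c i) i)
    (Function.update b (c i) k) (fun v => by
      by_cases hv : v = c i
      · subst hv; simp
      · rw [Function.update_of_ne hv]; exact ha v) (fun v => by
      by_cases hv : v = c i
      · subst hv; simp [hck]
      · rw [Function.update_of_ne hv]; exact hb v) (fun v => by
      by_cases hv : v = c i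
      · subst hv; simpa using hki.symm
      · rw [Function.update_of_ne hv, Function.update_of_ne hv]; exact hab v) j
  rw [← hcij, Function.update_self, Function.update_self] at h1
  obtain ⟨x, y, hxy⟩ := h1
  exact (orth_of_relation (h.unit i) (h.unit k) (h.unit j) (hne i k hki.symm) (hne i j hij)
    (hne k j hkj) hxy).1

end Pool.Agent.H284_net
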