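import Mathlib
import Pool.Agent.H284_net.Good

/-!
# Four mutually unbiased bases of `ℂ ^ 3` form the Hesse configuration
-/

set_option autoImplicit false

open Matrix Finset

namespace Pool.Agent.H284_net

/-- The vectors of the Hesse configuration. -/
noncomputable def hv (k : Fin 4) (a : Fin 3) : Fin 3 → ℂ :=
  if ((k : Fin 4) : ℕ) = 3 then (Pi.single a (1 : ℂ) : Fin 3 → ℂ)
  else ![(1 : ℂ), om ^ (a : ℕ), om ^ ((k : ℕ) + 2 * (a : ℕ))]

variable {ι : Type*} [Fintype ι] [DecidableEq ι]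

/-- Lines of one class which are multiples of three given vectors exhaust them. -/
lemma exhaust (u : ι → Fin 3 → ℂ) (c : ι → Fin 4) (hu : ∀ i, star (u i) ⬝ᵥ u i = 1)
    (horth : ∀ i j, i ≠ j → c i = c j → ov (u i) (u j) = 0)
    (hcard : ∀ v, (univ.filter (fun i => c i = v)).card = 3)
    (g : (Fin 3 → ℂ) ≃ₗ[ℂ] (Fin 3 → ℂ)) (v : Fin 4) (w : Fin 3 → (Fin 3 → ℂ))
    (h : ∀ i, c i = v → ∃ a : Fin 3, ∃ t : ℂ, t ≠ 0 ∧ g (u i) = t • w a) :
    ∀ a, ∃ i, c i = v ∧ ∃ t : ℂ, t ≠ 0 ∧ g (u i) = t • w a := by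
  classical
  have h' : ∀ i, ∃ a : Fin 3, c i = v → ∃ t : ℂ, t ≠ 0 ∧ g (u i) = t • w a := by
    intro i
    by_cases hi : c i = v
    · obtain ⟨a, ha⟩ := h i hi
      exact ⟨a, fun _ => ha⟩
    · exact ⟨0, fun h => absurd h hi⟩
  choose A hA using h'
  have hinj : ∀ i ∈ univ.filter (fun i => c i = v), ∀ j ∈ univ.filter (fun i => c i = v),
      A i = A j → i = j := by
    intro i hi j hj hij
    have hi := (mem_filter.mp hi).2
    have hj := (mem_filter.mp hj).2
    obtain ⟨t, ht, h1⟩ := hA i hi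
    obtain ⟨t', ht', h2⟩ := hA j hj
    by_contra hne
    have h3 : g (u j) = (t' / t) • g (u i) := by
      rw [h1, h2, hij, smul_smul, div_mul_cancel₀ _ ht]
    have h4 : u j = (t' / t) • u i := by
      apply g.injective
      rw [h3, map_smul]
    have h5 := horth i j hne (hi.trans hj.symm)
    have h6 := hu j
    unfold ov at h5
    have h7 : star (u i) ⬝ᵥ u j = 0 := by simpa using h5
    rw [h4, dotProduct_smul, hu i, smul_eq_mul, mul_one] at h7
    rw [h4, h7] at h6
    simp at h6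
  have himg : (univ.filter (fun i => c i = v)).image A = univ := by
    apply eq_univ_of_card
    rw [card_image_of_injOn hinj, hcard v, Fintype.card_fin]
  intro a
  have ha : a ∈ (univ.filter (fun i => c i = v)).image A := by rw [himg]; exact mem_univ a
  obtain ⟨i, hi, rfl⟩ := mem_image.mp ha
  exact ⟨i, (mem_filter.mp hi).2, hA i (mem_filter.mp hi).2⟩

theorem hesse_of_mub (u : ι → Fin 3 → ℂ) (c : ι → Fin 4) (hu : ∀ i, star (u i) ⬝ᵥ u i = 1)
    (hcross : ∀ i j, c i ≠ c j → ov (u i) (u j) = 1 / 3)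
    (horth : ∀ i j, i ≠ j → c i = c j → ov (u i) (u j) = 0)
    (hcard : ∀ v, (univ.filter (fun i => c i = v)).card = 3) :
    ∃ (g : (Fin 3 → ℂ) ≃ₗ[ℂ] (Fin 3 → ℂ)) (σ : Equiv.Perm (Fin 4)),
      (∀ i, ∃ a : Fin 3, ∃ t : ℂ, t ≠ 0 ∧ g (u i) = t • hv (σ (c i)) a) ∧
      (∀ v a, ∃ i, c i = v ∧ ∃ t : ℂ, t ≠ 0 ∧ g (u i) = t • hv (σ v) a) := by
  classical
  -- the basis of class 3
  obtain ⟨e, he3, heinj, hesurj⟩ : ∃ e : Fin 3 → ι, (∀ a, c (e a) = 3) ∧ Function.Injective e ∧
      ∀ i, c i = 3 → ∃ a, e a = i := by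
    let E := (univ.filter (fun i => c i = 3)).equivFinOfCardEq (hcard 3)
    refine ⟨fun a => (E.symm a).1, fun a => (mem_filter.mp (E.symm a).2).2, ?_, ?_⟩
    · intro a b hab
      exact E.symm.injective (Subtype.ext hab)
    · intro i hi
      refine ⟨E ⟨i, mem_filter.mpr ⟨mem_univ i, hi⟩⟩, ?_⟩
      simp
  have hinner0 : ∀ i j, i ≠ j → c i = c j → star (u i) ⬝ᵥ u j = 0 := by
    intro i j hij hc
    have := horth i j hij hc
    unfold ov at this
    simpa using this
  set U : Matrix (Fin 3) (Fin 3) ℂ := Matrix.of (fun a => star (u (e a))) with hU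
  have hUmul : ∀ x a, (U *ᵥ x) a = star (u (e a)) ⬝ᵥ x := fun x a => rfl
  have hUU : U * Uᴴ = 1 := by
    ext a b
    rw [mul_apply]
    have h1 : ∑ k, U a k * Uᴴ k b = star (u (e a)) ⬝ᵥ u (e b) := by
      rw [dotProduct]
      refine sum_congr rfl (fun k _ => ?_)
      rw [conjTranspose_apply, hU, of_apply, of_apply, Pi.star_apply (u (e b)), star_star]
    rw [h1]
    by_cases hab : a = b
    · subst hab
      rw [hu, one_apply_eq]
    · rw [hinner0 _ _ (fun h => hab (heinj h)) ((he3 a).trans (he3 b).symm), one_apply_ne hab]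
  have hUU' : Uᴴ * U = 1 := mul_eq_one_comm.mp hUU
  have hpars : ∀ x y : Fin 3 → ℂ, star x ⬝ᵥ y = star (U *ᵥ x) ⬝ᵥ (U *ᵥ y) := by
    intro x y
    rw [star_mulVec, dotProduct_mulVec, vecMul_vecMul, hUU', vecMul_one]
  -- a vector of class 0
  obtain ⟨j0, hj0⟩ : ∃ j0, c j0 = 0 := by
    have h1 : (univ.filter (fun i => c i = 0)).Nonempty := by
      rw [← card_pos, hcard 0]
      norm_num
    obtain ⟨j, hj⟩ := h1
    exact ⟨j, (mem_filter.mp hj).2⟩
  set z : Fin 3 → ℂ := U *ᵥ u j0 with hz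
  have hzn : ∀ a, ‖z a‖ ^ 2 = 1 / 3 := by
    intro a
    rw [hz, hUmul]
    exact hcross (e a) j0 (by rw [he3 a, hj0]; decide)
  have hz0 : ∀ a, z a ≠ 0 := by
    intro a h0
    have := hzn a
    rw [h0, norm_zero] at this
    norm_num at this
  -- the linear map
  let G : (Fin 3 → ℂ) →ₗ[ℂ] (Fin 3 → ℂ) :=
    { toFun := fun x a => (U *ᵥ x) a / z a
      map_add' := fun x y => by
        funext a
        simp only [mulVec_add, Pi.add_apply, add_div]
      map_smul' := fun t x => by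
        funext a
        simp only [mulVec_smul, Pi.smul_apply, smul_eq_mul, RingHom.id_apply, mul_div_assoc] }
  have hGinj : Function.Injective G := by
    rw [← LinearMap.ker_eq_bot, LinearMap.ker_eq_bot']
    intro x hx
    have h1 : U *ᵥ x = 0 := by
      funext a
      have h2 := congrFun hx a
      have h3 : (U *ᵥ x) a / z a = 0 := h2
      exact (div_eq_zero_iff.mp h3).resolve_right (hz0 a)
    have h2 : x = (Uᴴ * U) *ᵥ x := by rw [hUU', one_mulVec]
    rw [h2, ← mulVec_mulVec, h1, mulVec_zero]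
  set g : (Fin 3 → ℂ) ≃ₗ[ℂ] (Fin 3 → ℂ) := LinearEquiv.ofInjectiveEndo G hGinj with hg
  have hgapp : ∀ x a, g x a = (U *ᵥ x) a / z a := fun x a => rfl
  -- coordinates of the vectors outside class 3
  have hyn : ∀ j, c j ≠ 3 → ∀ a, ‖g (u j) a‖ = 1 := by
    intro j hj a
    have h1 : ‖g (u j) a‖ ^ 2 = 1 := by
      rw [hgapp, norm_div, div_pow, hzn a, hUmul]
      have := hcross (e a) j (by rw [he3 a]; exact hj.symm)
      unfold ov at this
      rw [this]
      norm_num
    exact (pow_eq_one_iff_of_nonneg (norm_nonneg _) (by norm_num)).mp h1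
  have hy0 : ∀ j, c j ≠ 3 → ∀ a, g (u j) a ≠ 0 := by
    intro j hj a h0
    have := hyn j hj a
    rw [h0, norm_zero] at this
    norm_num at this
  let A : ι → ℂ := fun j => g (u j) 1 / g (u j) 0
  let Bc : ι → ℂ := fun j => g (u j) 2 / g (u j) 0
  have hAn : ∀ j, c j ≠ 3 → ‖A j‖ = 1 := by
    intro j hj
    simp only [A]
    rw [norm_div, hyn j hj, hyn j hj, div_one]
  have hBn : ∀ j, c j ≠ 3 → ‖Bc j‖ = 1 := by
    intro j hj
    simp only [Bc]
    rw [norm_div, hyn j hj, hyn j hj, div_one]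
  have hvec : ∀ j, c j ≠ 3 → g (u j) = g (u j) 0 • ![1, A j, Bc j] := by
    intro j hj
    have h0 := hy0 j hj 0
    funext a
    fin_cases a
    · simp
    · simp only [A, Bc, Pi.smul_apply, smul_eq_mul]
      change g (u j) 1 = g (u j) 0 * (g (u j) 1 / g (u j) 0)
      field_simp
    · simp only [A, Bc, Pi.smul_apply, smul_eq_mul]
      change g (u j) 2 = g (u j) 0 * (g (u j) 2 / g (u j) 0)
      field_simp
  have hovf : ∀ i j, c i ≠ 3 → c j ≠ 3 → 9 * ov (u i) (u j) =
      ‖1 + (starRingEnd ℂ) (A i) * A j + (starRingEnd ℂ) (Bc i) * Bc j‖ ^ 2 := by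
    intro i j hi hj
    have h1 : star (u i) ⬝ᵥ u j = (1 / 3 : ℂ) * ((starRingEnd ℂ) (g (u i) 0) * g (u j) 0 *
        (1 + (starRingEnd ℂ) (A i) * A j + (starRingEnd ℂ) (Bc i) * Bc j)) := by
      rw [hpars]
      have h2 : ∀ k a, (U *ᵥ u k) a = z a * g (u k) a := by
        intro k a
        rw [hgapp, mul_div_cancel₀ _ (hz0 a)]
      have h3 : ∀ a, (starRingEnd ℂ) (z a) * z a = 1 / 3 := by
        intro a
        rw [Complex.conj_mul', ← Complex.ofReal_pow, hzn a]
        norm_num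
      have h4 : g (u i) 1 = g (u i) 0 * A i := by
        simp only [A]
        rw [mul_div_cancel₀ _ (hy0 i hi 0)]
      have h5 : g (u i) 2 = g (u i) 0 * Bc i := by
        simp only [Bc]
        rw [mul_div_cancel₀ _ (hy0 i hi 0)]
      have h6 : g (u j) 1 = g (u j) 0 * A j := by
        simp only [A]
        rw [mul_div_cancel₀ _ (hy0 j hj 0)]
      have h7 : g (u j) 2 = g (u j) 0 * Bc j := by
        simp only [Bc]
        rw [mul_div_cancel₀ _ (hy0 j hj 0)]
      rw [dotProduct, Fin.sum_univ_three]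
      simp only [Pi.star_apply, Complex.star_def, h2, map_mul]
      rw [h4, h5, h6, h7, map_mul, map_mul]
      linear_combination (starRingEnd ℂ) (g (u i) 0) * g (u j) 0 * h3 0 +
        (starRingEnd ℂ) (g (u i) 0) * g (u j) 0 * (starRingEnd ℂ) (A i) * A j * h3 1 +
        (starRingEnd ℂ) (g (u i) 0) * g (u j) 0 * (starRingEnd ℂ) (Bc i) * Bc j * h3 2
    unfold ov
    rw [h1, norm_mul, norm_mul, norm_mul, RCLike.norm_conj, hyn i hi, hyn j hj, mul_pow]
    norm_num
    ring
  -- the chosen vector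
  have hone : ∀ a, g (u j0) a = 1 := by
    intro a
    rw [hgapp]
    exact div_self (hz0 a)
  have hA0 : A j0 = 1 := by simp only [A, hone]; norm_num
  have hB0 : Bc j0 = 1 := by simp only [Bc, hone]; norm_num
  -- class 0
  have hc0 : ∀ j, c j = 0 → j ≠ j0 → (A j = om ∧ Bc j = om ^ 2) ∨ (A j = om ^ 2 ∧ Bc j = om) := by
    intro j hj hne
    have hj3 : c j ≠ 3 := by rw [hj]; decide
    have hj03 : c j0 ≠ 3 := by rw [hj0]; decide
    have h1 := hovf j0 j hj03 hj3
    rw [horth j0 j hne.symm (hj0.trans hj.symm), hA0, hB0] at h1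
    simp only [map_one, one_mul, mul_zero] at h1
    have h2 : 1 + A j + Bc j = 0 := by
      have : ‖1 + A j + Bc j‖ = 0 := by
        have := h1.symm
        simpa using this
      exact norm_eq_zero.mp this
    exact sum_zero_cases (hAn j hj3) (hBn j hj3) h2
  have hsame : ∀ i j, i ≠ j → c i = c j → c i ≠ 3 → ¬ (A i = A j ∧ Bc i = Bc j) := by
    intro i j hij hc hi3 hAB
    have hj3 : c j ≠ 3 := by rw [← hc]; exact hi3
    have h1 := hovf i j hi3 hj3
    rw [horth i j hij hc, hAB.1, hAB.2, Complex.conj_mul', Complex.conj_mul', hAn j hj3,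
      hBn j hj3] at h1
    norm_num at h1
  obtain ⟨j1, hj1, hj1A, hj1B⟩ : ∃ j1, c j1 = 0 ∧ A j1 = om ∧ Bc j1 = om ^ 2 := by
    by_contra hcon
    push Not at hcon
    have h1 : ∀ j, c j = 0 → j ≠ j0 → A j = om ^ 2 ∧ Bc j = om := by
      intro j hj hne
      rcases hc0 j hj hne with h | h
      · exact absurd h.2 (hcon j hj h.1)
      · exact h
    have h2 : 2 ≤ ((univ.filter (fun i => c i = 0)).erase j0).card := by
      have hm : j0 ∈ univ.filter (fun i => c i = 0) := mem_filter.mpr ⟨mem_univ _, hj0⟩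
      rw [card_erase_of_mem hm, hcard 0]
    obtain ⟨a, ha, b, hb, hab⟩ := one_lt_card.mp h2
    have ha' := mem_erase.mp ha
    have hb' := mem_erase.mp hb
    have ha0 := (mem_filter.mp ha'.2).2
    have hb0 := (mem_filter.mp hb'.2).2
    obtain ⟨p1, p2⟩ := h1 a ha0 ha'.1
    obtain ⟨q1, q2⟩ := h1 b hb0 hb'.1
    exact hsame a b hab (ha0.trans hb0.symm) (by rw [ha0]; decide)
      ⟨p1.trans q1.symm, p2.trans q2.symm⟩
  -- classes 1 and 2
  have hcases : ∀ j, c j ≠ 3 → c j ≠ 0 → ∃ s : Fin 3, ∃ k : Fin 4, (k = 1 ∨ k = 2) ∧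
      A j = om ^ (s : ℕ) ∧ Bc j = om ^ ((k : ℕ) + 2 * (s : ℕ)) := by
    intro j hj3 hj0'
    have hj03 : c j0 ≠ 3 := by rw [hj0]; decide
    have hj13 : c j1 ≠ 3 := by rw [hj1]; decide
    have h1 := hovf j0 j hj03 hj3
    rw [hcross j0 j (by rw [hj0]; exact hj0'.symm), hA0, hB0] at h1
    simp only [map_one, one_mul] at h1
    have h2 := hovf j1 j hj13 hj3
    have h3 : (starRingEnd ℂ) (om ^ 2) = om := by
      rw [map_pow, conj_om]
      calc (om ^ 2) ^ 2 = om ^ 3 * om := by ring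
        _ = om := by rw [om_cube, one_mul]
    rw [hcross j1 j (by rw [hj1]; exact hj0'.symm), hj1A, hj1B, h3, conj_om] at h2
    refine unbiased_cases (hAn j hj3) (hBn j hj3) ?_ ?_
    · rw [← h1]; norm_num
    · rw [← h2]; norm_num
  have hprod : ∀ (s : Fin 3) (k : Fin 4), om ^ (s : ℕ) * om ^ ((k : ℕ) + 2 * (s : ℕ)) =
      om ^ (k : ℕ) := by
    intro s k
    rw [← pow_add]
    have h1 : (s : ℕ) + ((k : ℕ) + 2 * (s : ℕ)) = (k : ℕ) + 3 * (s : ℕ) := by ring
    rw [h1, pow_add, pow_mul, om_cube, one_pow, mul_one]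
  have hk12 : ∀ k k' : Fin 4, (k = 1 ∨ k = 2) → (k' = 1 ∨ k' = 2) →
      om ^ (k : ℕ) = om ^ (k' : ℕ) → k = k' := by
    intro k k' hk hk' h
    have h0 : om ≠ 0 := by
      intro h
      have := om_norm
      rw [h, norm_zero] at this
      norm_num at this
    rcases hk with rfl | rfl <;> rcases hk' with rfl | rfl
    · rfl
    · exfalso
      simp only [Fin.val_one, Fin.val_two, pow_one] at h
      apply om_ne_one
      have h7 : om * om = 1 * om := by rw [← sq, ← h, one_mul]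
      exact mul_right_cancel₀ h0 h7
    · exfalso
      simp only [Fin.val_one, Fin.val_two, pow_one] at h
      apply om_ne_one
      have h7 : om * om = 1 * om := by rw [← sq, h, one_mul]
      exact mul_right_cancel₀ h0 h7
    · rfl
  -- the type of a class is constant
  have hclass : ∀ v : Fin 4, v ≠ 3 → v ≠ 0 → ∃ k : Fin 4, (k = 1 ∨ k = 2) ∧ ∀ j, c j = v →
      ∃ s : Fin 3, A j = om ^ (s : ℕ) ∧ Bc j = om ^ ((k : ℕ) + 2 * (s : ℕ)) := by
    intro v hv3 hv0
    obtain ⟨i, hi⟩ : ∃ i, c i = v := by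
      have h1 : (univ.filter (fun i => c i = v)).Nonempty := by
        rw [← card_pos, hcard v]
        norm_num
      obtain ⟨j, hj⟩ := h1
      exact ⟨j, (mem_filter.mp hj).2⟩
    obtain ⟨s, k, hk, hA, hB⟩ := hcases i (by rw [hi]; exact hv3) (by rw [hi]; exact hv0)
    refine ⟨k, hk, fun j hj => ?_⟩
    by_cases hij : i = j
    · subst hij
      exact ⟨s, hA, hB⟩
    obtain ⟨s', k', hk', hA', hB'⟩ := hcases j (by rw [hj]; exact hv3) (by rw [hj]; exact hv0)
    have hi3 : c i ≠ 3 := by rw [hi]; exact hv3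
    have hj3 : c j ≠ 3 := by rw [hj]; exact hv3
    have h1 := hovf i j hi3 hj3
    rw [horth i j hij (hi.trans hj.symm), mul_zero] at h1
    have h2 : 1 + (starRingEnd ℂ) (A i) * A j + (starRingEnd ℂ) (Bc i) * Bc j = 0 := by
      have : ‖1 + (starRingEnd ℂ) (A i) * A j + (starRingEnd ℂ) (Bc i) * Bc j‖ = 0 := by
        have := h1.symm
        simpa using this
      exact norm_eq_zero.mp this
    have h3 : (starRingEnd ℂ) (A i) * A j * ((starRingEnd ℂ) (Bc i) * Bc j) = 1 := by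
      rcases sum_zero_cases (by rw [norm_mul, RCLike.norm_conj, hAn i hi3, hAn j hj3, one_mul])
        (by rw [norm_mul, RCLike.norm_conj, hBn i hi3, hBn j hj3, one_mul]) h2 with h | h
      · rw [h.1, h.2, ← pow_succ', om_cube]
      · rw [h.1, h.2, ← pow_succ, om_cube]
    have h4 : A j * Bc j = A i * Bc i := by
      have e1 : (starRingEnd ℂ) (A i) * A i = 1 := by
        rw [Complex.conj_mul', hAn i hi3]; norm_num
      have e2 : (starRingEnd ℂ) (Bc i) * Bc i = 1 := by
        rw [Complex.conj_mul', hBn i hi3]; norm_num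
      linear_combination A i * Bc i * h3 - A j * Bc j * (starRingEnd ℂ) (Bc i) * Bc i * e1 -
        A j * Bc j * e2
    rw [hA, hB, hA', hB', hprod, hprod] at h4
    have h5 := hk12 k' k hk' hk h4
    subst h5
    exact ⟨s', hA', hB'⟩
  obtain ⟨k1, hk1, hclass1⟩ := hclass 1 (by decide) (by decide)
  obtain ⟨k2, hk2, hclass2⟩ := hclass 2 (by decide) (by decide)
  have hk1v : ((k1 : Fin 4) : ℕ) ≠ 3 := by rcases hk1 with rfl | rfl <;> decide
  have hk2v : ((k2 : Fin 4) : ℕ) ≠ 3 := by rcases hk2 with rfl | rfl <;> decide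
  have hhv : ∀ (k : Fin 4) (s : Fin 3), (k : ℕ) ≠ 3 → ∀ j, c j ≠ 3 → A j = om ^ (s : ℕ) →
      Bc j = om ^ ((k : ℕ) + 2 * (s : ℕ)) → g (u j) = g (u j) 0 • hv k s := by
    intro k s hk j hj h1 h2
    have h3 := hvec j hj
    rw [h1, h2] at h3
    rw [hv, if_neg hk]
    exact h3
  -- the two types are different
  have hk12ne : k1 ≠ k2 := by
    intro hkk
    have hex := exhaust u c hu horth hcard g 1 (hv k1) (fun i hi => by
      obtain ⟨s, h1, h2⟩ := hclass1 i hi
      have hi3 : c i ≠ 3 := by rw [hi]; decide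
      exact ⟨s, _, hy0 i hi3 0, hhv k1 s hk1v i hi3 h1 h2⟩)
    obtain ⟨j, hj⟩ : ∃ i, c i = 2 := by
      have h1 : (univ.filter (fun i => c i = 2)).Nonempty := by
        rw [← card_pos, hcard 2]
        norm_num
      obtain ⟨j, hj⟩ := h1
      exact ⟨j, (mem_filter.mp hj).2⟩
    obtain ⟨s, h1, h2⟩ := hclass2 j hj
    have hj3 : c j ≠ 3 := by rw [hj]; decide
    rw [← hkk] at h2
    have h3 := hhv k1 s hk1v j hj3 h1 h2
    obtain ⟨i, hi, t, ht, h4⟩ := hex s
    have h5 : u j = (g (u j) 0 / t) • u i := by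
      apply g.injective
      rw [map_smul, h4, smul_smul, div_mul_cancel₀ _ ht]
      exact h3
    have h6 := hcross i j (by rw [hi, hj]; decide)
    have h7 : ov (u i) (u j) = 1 := by
      have h8 := hu j
      rw [h5, star_smul, smul_dotProduct, dotProduct_smul, hu i] at h8
      unfold ov
      rw [h5, dotProduct_smul, hu i]
      simp only [smul_eq_mul, mul_one] at h8 ⊢
      rw [Complex.star_def, Complex.conj_mul'] at h8
      exact_mod_cast h8
    rw [h7] at h6
    norm_num at h6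
  -- the permutation
  obtain ⟨σ, hσ0, hσ1, hσ2, hσ3⟩ : ∃ σ : Equiv.Perm (Fin 4), σ 0 = 0 ∧ σ 1 = k1 ∧ σ 2 = k2 ∧
      σ 3 = 3 := by
    rcases hk1 with rfl | rfl <;> rcases hk2 with rfl | rfl
    · exact absurd rfl hk12ne
    · exact ⟨Equiv.refl _, rfl, rfl, rfl, rfl⟩
    · exact ⟨Equiv.swap 1 2, by decide, by decide, by decide, by decide⟩
    · exact absurd rfl hk12ne
  have hall : ∀ i, ∃ a : Fin 3, ∃ t : ℂ, t ≠ 0 ∧ g (u i) = t • hv (σ (c i)) a := by
    intro i
    obtain hci | hci | hci | hci : c i = 0 ∨ c i = 1 ∨ c i = 2 ∨ c i = 3 := by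
      generalize c i = v
      fin_cases v <;> simp
    · have hi3 : c i ≠ 3 := by rw [hci]; decide
      rw [hci, hσ0]
      by_cases hi : i = j0
      · subst hi
        exact ⟨0, _, hy0 i hi3 0, hhv 0 0 (by decide) i hi3 (by rw [hA0]; simp)
          (by rw [hB0]; simp)⟩
      · rcases hc0 i hci hi with h | h
        · exact ⟨1, _, hy0 i hi3 0, hhv 0 1 (by decide) i hi3 (by rw [h.1]; simp)
            (by rw [h.2]; simp)⟩
        · refine ⟨2, _, hy0 i hi3 0, hhv 0 2 (by decide) i hi3 (by rw [h.1]; simp) ?_⟩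
          rw [h.2]
          simp only [Fin.val_zero, Fin.val_two, zero_add]
          linear_combination (-om) * om_cube
    · have hi3 : c i ≠ 3 := by rw [hci]; decide
      rw [hci, hσ1]
      obtain ⟨s, h1, h2⟩ := hclass1 i hci
      exact ⟨s, _, hy0 i hi3 0, hhv k1 s hk1v i hi3 h1 h2⟩
    · have hi3 : c i ≠ 3 := by rw [hci]; decide
      rw [hci, hσ2]
      obtain ⟨s, h1, h2⟩ := hclass2 i hci
      exact ⟨s, _, hy0 i hi3 0, hhv k2 s hk2v i hi3 h1 h2⟩
    · rw [hci, hσ3]
      obtain ⟨a, rfl⟩ := hesurj i hci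
      refine ⟨a, (z a)⁻¹, inv_ne_zero (hz0 a), ?_⟩
      funext b
      rw [hgapp, hUmul, hv, if_pos (by decide), Pi.smul_apply, smul_eq_mul]
      by_cases hab : b = a
      · subst hab
        rw [hu, Pi.single_eq_same, mul_one, one_div]
      · rw [hinner0 _ _ (fun h => hab (heinj h)) ((he3 b).trans (he3 a).symm),
          Pi.single_eq_of_ne hab, mul_zero, zero_div]
  refine ⟨g, σ, hall, fun v a => ?_⟩
  exact exhaust u c hu horth hcard g v (hv (σ v)) (fun i hi => by
    have := hall i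
    rwa [hi] at this) a

end Pool.Agent.H284_net
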