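import Mathlib
import Pool.Agent.H284_net.Hesse

/-!
# A non-local 4-multinet is the Hesse configuration
-/

set_option autoImplicit false

open Matrix Finset
open Pool.Agent.H284_beta

namespace Pool.Agent.H284_net

variable {ι : Type*} [Fintype ι] [DecidableEq ι]
variable {f : ι → (Fin 3 → ℂ)} {c : ι → Fin 4} {B : Matrix (Fin 3) (Fin 3) ℂ} {s : ι → ℝ}
  {u : ι → Fin 3 → ℂ}

/-- A nonempty class has at least three lines. -/
lemma Good.three_le (h : Good f c B s u) {v : Fin 4} {j : ι} (hj : c j = v) :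
    3 ≤ (univ.filter (fun i => c i = v)).card := by
  have h1 := h.classSum v j
  have h2 : (1 : ℝ) ≤ ∑ i ∈ univ.filter (fun i => c i = v), ov (u i) (u j) := by
    have h3 : ov (u j) (u j) = 1 := ov_self (h.unit j)
    rw [← h3]
    exact single_le_sum (f := fun i => ov (u i) (u j)) (fun i _ => ov_nonneg _ _)
      (mem_filter.mpr ⟨mem_univ j, hj⟩)
  have h4 : (3 : ℝ) ≤ ((univ.filter (fun i => c i = v)).card : ℝ) := by linarith
  exact_mod_cast h4

lemma Good.two (h : Good f c B s u) (hex : ∀ v, ∃ i, c i = v) :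
    ∀ v, ∃ i j, i ≠ j ∧ c i = v ∧ c j = v := by
  intro v
  obtain ⟨j, hj⟩ := hex v
  have h1 := h.three_le hj
  have h2 : 1 < (univ.filter (fun i => c i = v)).card := by omega
  obtain ⟨a, ha, b, hb, hab⟩ := one_lt_card.mp h2
  exact ⟨a, b, hab, (mem_filter.mp ha).2, (mem_filter.mp hb).2⟩

lemma Good.card_eq (h : Good f c B s u) (hf : ∀ i j, i ≠ j → LinearIndependent ℂ ![f i, f j])
    (hex : ∀ v, ∃ i, c i = v) (v : Fin 4) : (univ.filter (fun i => c i = v)).card = 3 := by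
  classical
  obtain ⟨j, hj⟩ := hex v
  have h1 := h.classSum v j
  have horth := h.orth hf (h.two hex)
  have h2 : ∑ i ∈ univ.filter (fun i => c i = v), ov (u i) (u j) = 1 := by
    rw [sum_eq_single j]
    · exact ov_self (h.unit j)
    · intro b hb hbj
      exact horth b j hbj ((mem_filter.mp hb).2.trans hj.symm)
    · intro hn
      exact absurd (mem_filter.mpr ⟨mem_univ j, hj⟩) hn
  rw [h2] at h1
  have h3 : ((univ.filter (fun i => c i = v)).card : ℝ) = 3 := by linarith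
  exact_mod_cast h3

/-- A matrix with unit determinant as a linear equivalence. -/
lemma exists_equiv (hB : IsUnit B.det) :
    ∃ g : (Fin 3 → ℂ) ≃ₗ[ℂ] (Fin 3 → ℂ), ∀ x, g x = B *ᵥ x := by
  have hU : IsUnit B := (Matrix.isUnit_iff_isUnit_det B).mpr hB
  have hinj : Function.Injective B.mulVecLin := by
    intro x y hxy
    exact (Matrix.mulVec_injective_iff_isUnit.mpr hU) (by simpa using hxy)
  refine ⟨LinearEquiv.ofInjectiveEndo B.mulVecLin hinj, fun x => ?_⟩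
  rfl

theorem Good.hesse (h : Good f c B s u) (hf : ∀ i j, i ≠ j → LinearIndependent ℂ ![f i, f j])
    (hex : ∀ v, ∃ i, c i = v) :
    ∃ (g : (Fin 3 → ℂ) ≃ₗ[ℂ] (Fin 3 → ℂ)) (σ : Equiv.Perm (Fin 4)),
      (∀ i, ∃ a : Fin 3, ∃ t : ℂ, t ≠ 0 ∧ g (f i) = t • hv (σ (c i)) a) ∧
      (∀ v a, ∃ i, c i = v ∧ ∃ t : ℂ, t ≠ 0 ∧ g (f i) = t • hv (σ v) a) := by
  obtain ⟨g, σ, h1, h2⟩ := hesse_of_mub u c h.unit (h.third hf hex) (h.orth hf (h.two hex))
    (h.card_eq hf hex)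
  obtain ⟨b, hb⟩ := exists_equiv h.det
  have key : ∀ i (t : ℂ) (w : Fin 3 → ℂ), t ≠ 0 → g (u i) = t • w →
      ∃ t' : ℂ, t' ≠ 0 ∧ (b.trans g) (f i) = t' • w := by
    intro i t w ht hi
    have hs : (s i : ℂ) ≠ 0 := by exact_mod_cast (h.pos i).ne'
    refine ⟨(s i : ℂ)⁻¹ * t, mul_ne_zero (inv_ne_zero hs) ht, ?_⟩
    rw [LinearEquiv.trans_apply, hb, mul_smul, ← hi, h.def_u i, map_smul, smul_smul,
      inv_mul_cancel₀ hs, one_smul]
  refine ⟨b.trans g, σ, ?_, ?_⟩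
  · intro i
    obtain ⟨a, t, ht, hi⟩ := h1 i
    obtain ⟨t', ht', h'⟩ := key i t _ ht hi
    exact ⟨a, t', ht', h'⟩
  · intro v a
    obtain ⟨i, hi, t, ht, hi'⟩ := h2 v a
    obtain ⟨t', ht', h'⟩ := key i t _ ht hi'
    exact ⟨i, hi, t', ht', h'⟩

variable {m : ι → ℕ} {d : ℕ}

/-- A non-local `4`-multinet has constant multiplicities and is the Hesse configuration. -/
theorem MNet.hesse (h : MNet f c m d) :
    (∃ μ, 0 < μ ∧ (∀ i, m i = μ)) ∧
    ∃ (g : (Fin 3 → ℂ) ≃ₗ[ℂ] (Fin 3 → ℂ)) (σ : Equiv.Perm (Fin 4)),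
      (∀ i, ∃ a : Fin 3, ∃ t : ℂ, t ≠ 0 ∧ g (f i) = t • hv (σ (c i)) a) ∧
      (∀ v a, ∃ i, c i = v ∧ ∃ t : ℂ, t ≠ 0 ∧ g (f i) = t • hv (σ v) a) := by
  obtain ⟨hμ, B, s, u, hG⟩ := h.good
  refine ⟨hμ, hG.hesse h.indep ?_⟩
  intro v
  have h1 := h.total v
  have h2 := h.d_pos
  by_contra hcon
  push Not at hcon
  have h3 : univ.filter (fun i => c i = v) = ∅ := by
    apply filter_eq_empty_iff.mpr
    intro i _
    exact hcon i
  rw [h3, sum_empty] at h1
  omega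

end Pool.Agent.H284_net
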