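import Mathlib
import Pool.Agent.H284_net.Final
import Pool.Agent.H284_net.Defs

/-!
# From multinets in the projective plane to normal vectors
-/

set_option autoImplicit false

open Matrix Finset
open Pool.Agent.H284_beta

namespace Pool.Agent.H284_net

lemma indep_rep {ℓ ℓ' : P2} (h : ℓ ≠ ℓ') : LinearIndependent ℂ ![ℓ.rep, ℓ'.rep] := by
  have h1 := (Projectivization.independent_pair_iff_ne ℓ ℓ').mpr h
  rw [Projectivization.independent_iff] at h1
  have h2 : Projectivization.rep ∘ ![ℓ, ℓ'] = ![ℓ.rep, ℓ'.rep] := by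
    funext i
    fin_cases i <;> rfl
  rw [h2] at h1
  exact h1

/-- A nonzero vector orthogonal to two given vectors. -/
lemma exists_meet (ℓ ℓ' : P2) : ∃ p : P2, On p ℓ ∧ On p ℓ' := by
  have key : ∀ v w : Fin 3 → ℂ, ∃ x : Fin 3 → ℂ, x ≠ 0 ∧ x ⬝ᵥ v = 0 ∧ x ⬝ᵥ w = 0 := by
    intro v w
    by_cases hvw : LinearIndependent ℂ ![v, w]
    · refine ⟨v ⨯₃ w, crossProduct_ne_zero_iff_linearIndependent.mpr hvw, ?_, ?_⟩
      · rw [dotProduct_comm]; exact dot_self_cross v w
      · rw [dotProduct_comm]; exact dot_cross_self v w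
    · let φ : (Fin 3 → ℂ) →ₗ[ℂ] (Fin 2 → ℂ) :=
        { toFun := fun x => ![x ⬝ᵥ v, x ⬝ᵥ w]
          map_add' := fun x y => by
            ext i; fin_cases i <;> simp [add_dotProduct]
          map_smul' := fun a x => by
            ext i; fin_cases i <;> simp [smul_dotProduct] }
      have h1 : ¬ Function.Injective φ := by
        intro hinj
        have := LinearMap.finrank_le_finrank_of_injective hinj
        rw [Module.finrank_fin_fun, Module.finrank_fin_fun] at this
        omega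
      rw [← LinearMap.ker_eq_bot, Submodule.eq_bot_iff] at h1
      push Not at h1
      obtain ⟨x, hx, hx0⟩ := h1
      have hx' : φ x = 0 := hx
      have h2 := congrFun hx' 0
      have h3 := congrFun hx' 1
      exact ⟨x, hx0, by simpa [φ] using h2, by simpa [φ] using h3⟩
  obtain ⟨x, hx, h1, h2⟩ := key ℓ.rep ℓ'.rep
  obtain ⟨a, ha⟩ := Projectivization.exists_smul_eq_mk_rep ℂ x hx
  refine ⟨Projectivization.mk ℂ x hx, ?_, ?_⟩
  · unfold On
    rw [← ha, Units.smul_def, smul_dotProduct, h1, smul_zero]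
  · unfold On
    rw [← ha, Units.smul_def, smul_dotProduct, h2, smul_zero]

/-- Two distinct lines have only one common point. -/
lemma eq_of_on {p q ℓ ℓ' : P2} (h : ℓ ≠ ℓ') (h1 : On p ℓ) (h2 : On p ℓ') (h3 : On q ℓ)
    (h4 : On q ℓ') : p = q := by
  by_contra hpq
  have hi := indep_rep hpq
  unfold On at h1 h2 h3 h4
  have hl := indep_rep h
  -- the vector product of the two points is a multiple of both lines
  have key : ∀ x : Fin 3 → ℂ, p.rep ⬝ᵥ x = 0 → q.rep ⬝ᵥ x = 0 →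
      x ⨯₃ (p.rep ⨯₃ q.rep) = 0 := by
    intro x hx hy
    rw [cross_cross_eq_smul_sub_smul']
    rw [dotProduct_comm x q.rep, hy, hx]
    simp
  have hc : p.rep ⨯₃ q.rep ≠ 0 := crossProduct_ne_zero_iff_linearIndependent.mpr hi
  have k1 := key _ h1 h3
  have k2 := key _ h2 h4
  have d1 : ¬ LinearIndependent ℂ ![ℓ.rep, p.rep ⨯₃ q.rep] := by
    rw [← crossProduct_ne_zero_iff_linearIndependent, k1]
    simp
  have d2 : ¬ LinearIndependent ℂ ![ℓ'.rep, p.rep ⨯₃ q.rep] := by
    rw [← crossProduct_ne_zero_iff_linearIndependent, k2]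
    simp
  have e1 : ∃ a : ℂ, ℓ.rep = a • (p.rep ⨯₃ q.rep) := by
    rw [LinearIndependent.pair_iff] at d1
    push Not at d1
    obtain ⟨s, t, hst, hne⟩ := d1
    have hs : s ≠ 0 := by
      intro hs
      rw [hs, zero_smul, zero_add] at hst
      rcases smul_eq_zero.mp hst with ht | ht
      · exact hne hs ht
      · exact hc ht
    refine ⟨-(t / s), ?_⟩
    have h5 : s • ℓ.rep = (-t) • (p.rep ⨯₃ q.rep) := by
      rw [neg_smul]
      exact eq_neg_of_add_eq_zero_left hst
    rw [show (-(t / s)) = s⁻¹ * (-t) by field_simp, mul_smul, ← h5, smul_smul,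
      inv_mul_cancel₀ hs, one_smul]
  have e2 : ∃ a : ℂ, ℓ'.rep = a • (p.rep ⨯₃ q.rep) := by
    rw [LinearIndependent.pair_iff] at d2
    push Not at d2
    obtain ⟨s, t, hst, hne⟩ := d2
    have hs : s ≠ 0 := by
      intro hs
      rw [hs, zero_smul, zero_add] at hst
      rcases smul_eq_zero.mp hst with ht | ht
      · exact hne hs ht
      · exact hc ht
    refine ⟨-(t / s), ?_⟩
    have h5 : s • ℓ'.rep = (-t) • (p.rep ⨯₃ q.rep) := by
      rw [neg_smul]
      exact eq_neg_of_add_eq_zero_left hst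
    rw [show (-(t / s)) = s⁻¹ * (-t) by field_simp, mul_smul, ← h5, smul_smul,
      inv_mul_cancel₀ hs, one_smul]
  obtain ⟨a, ha⟩ := e1
  obtain ⟨b, hb⟩ := e2
  rw [LinearIndependent.pair_iff] at hl
  have h6 := hl b (-a) (by rw [ha, hb, smul_smul, smul_smul, ← add_smul]; ring_nf; simp)
  have ha0 : a = 0 := by simpa using h6.2
  rw [ha0, zero_smul] at ha
  exact ℓ.rep_nonzero ha

/-- Two lines with the same points are equal. -/
lemma eq_of_same {ℓ ℓ' : P2} (h : ∀ x, x ⬝ᵥ ℓ.rep = 0 → x ⬝ᵥ ℓ'.rep = 0) : ℓ = ℓ' := by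
  by_contra hne
  have hl := indep_rep hne
  have hc := crossProduct_ne_zero_iff_linearIndependent.mpr hl
  apply hc
  have key : ∀ w : Fin 3 → ℂ, w ⬝ᵥ (ℓ.rep ⨯₃ ℓ'.rep) = 0 := by
    intro w
    have h1 : (w ⨯₃ ℓ.rep) ⬝ᵥ ℓ.rep = 0 := by
      rw [dotProduct_comm]
      exact dot_cross_self w ℓ.rep
    have h2 := h _ h1
    rw [triple_product_permutation, triple_product_permutation, dotProduct_comm] at *
    rw [← h2]
    exact (dotProduct_comm _ _)
  ext a
  have := key (Pi.single a 1)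
  simpa using this

/-- The transformation of the points which goes with a transformation of the lines. -/
lemma exists_dual (g : (Fin 3 → ℂ) ≃ₗ[ℂ] (Fin 3 → ℂ)) :
    ∃ T : (Fin 3 → ℂ) ≃ₗ[ℂ] (Fin 3 → ℂ), ∀ x y, T x ⬝ᵥ g y = x ⬝ᵥ y := by
  set G := LinearMap.toMatrix' (g : (Fin 3 → ℂ) →ₗ[ℂ] (Fin 3 → ℂ)) with hG
  set H := LinearMap.toMatrix' (g.symm : (Fin 3 → ℂ) →ₗ[ℂ] (Fin 3 → ℂ)) with hH
  have hHG : H * G = 1 := by
    rw [hG, hH, ← LinearMap.toMatrix'_comp]
    simp
  have hu : IsUnit (Hᵀ).det := by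
    rw [det_transpose]
    exact isUnit_iff_exists_inv.mpr ⟨G.det, by rw [← det_mul, hHG, det_one]⟩
  obtain ⟨T, hT⟩ := exists_equiv hu
  refine ⟨T, fun x y => ?_⟩
  have h1 : g y = G *ᵥ y := by
    rw [hG, LinearMap.toMatrix'_mulVec]
    rfl
  rw [hT, h1, mulVec_transpose, ← dotProduct_mulVec, mulVec_mulVec, hHG, one_mulVec]

end Pool.Agent.H284_net
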