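import Mathlib
import Pool.Agent.H284_net.Bridge

/-!
# The uniqueness theorem for lines of the projective plane
-/

set_option autoImplicit false

open Matrix Finset
open Pool.Agent.H284_beta

namespace Pool.Agent.H284_net

open Classical in
/-- A balanced family of four classes of lines, not all through one point, is the Hesse
configuration. -/
theorem hesse_of_lines (A : Fin 4 → Finset P2) (m : P2 → ℕ) (d : ℕ)
    (hdisj : ∀ i j, i ≠ j → Disjoint (A i) (A j)) (hpos : ∀ i, ∀ ℓ ∈ A i, 0 < m ℓ)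
    (hdeg : ∀ i, ∑ ℓ ∈ A i, m ℓ = d)
    (hbal : ∀ i j, i ≠ j → ∀ ℓ ∈ A i, ∀ ℓ' ∈ A j, ∀ p, On p ℓ → On p ℓ' → ∀ v w,
      ∑ ℓ ∈ (A v).filter (fun ℓ => On p ℓ), m ℓ = ∑ ℓ ∈ (A w).filter (fun ℓ => On p ℓ), m ℓ)
    (hspan : ¬ ∃ p, ∀ i, ∀ ℓ ∈ A i, On p ℓ) :
    (∃ μ, 0 < μ ∧ ∀ i, ∀ ℓ ∈ A i, m ℓ = μ) ∧
    ∃ (g : (Fin 3 → ℂ) ≃ₗ[ℂ] (Fin 3 → ℂ)) (σ : Equiv.Perm (Fin 4)),
      (∀ i, ∀ ℓ ∈ A i, ∃ a : Fin 3, ∃ t : ℂ, t ≠ 0 ∧ g ℓ.rep = t • hv (σ i) a) ∧
      (∀ i a, ∃ ℓ ∈ A i, ∃ t : ℂ, t ≠ 0 ∧ g ℓ.rep = t • hv (σ i) a) := by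
  set L : Finset P2 := univ.biUnion A with hL
  have hcl : ∀ i : {x // x ∈ L}, ∃ v, i.1 ∈ A v := by
    intro i
    obtain ⟨v, _, hv⟩ := mem_biUnion.mp i.2
    exact ⟨v, hv⟩
  choose c hc using hcl
  have hcu : ∀ (i : {x // x ∈ L}) v, i.1 ∈ A v → c i = v := by
    intro i v hv
    by_contra hne
    exact (disjoint_left.mp (hdisj _ _ hne)) (hc i) hv
  have hmem : ∀ v, ∀ ℓ ∈ A v, ℓ ∈ L := fun v ℓ hℓ => mem_biUnion.mpr ⟨v, mem_univ v, hℓ⟩
  set f : {x // x ∈ L} → (Fin 3 → ℂ) := fun i => i.1.rep with hf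
  set m' : {x // x ∈ L} → ℕ := fun i => m i.1 with hm'
  have hindep : ∀ i j, i ≠ j → LinearIndependent ℂ ![f i, f j] := by
    intro i j hij
    exact indep_rep (fun h => hij (Subtype.ext h))
  -- sums over a class
  have hsum : ∀ v (P : P2 → Prop),
      ∑ i ∈ (univ : Finset {x // x ∈ L}).filter (fun i => P i.1 ∧ c i = v), m' i =
        ∑ ℓ ∈ (A v).filter (fun ℓ => P ℓ), m ℓ := by
    intro v P
    refine sum_bij (fun i _ => i.1) ?_ ?_ ?_ ?_
    · intro i hi
      obtain ⟨h1, h2⟩ := (mem_filter.mp hi).2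
      exact mem_filter.mpr ⟨h2 ▸ hc i, h1⟩
    · intro i _ j _ hij
      exact Subtype.ext hij
    · intro ℓ hℓ
      obtain ⟨h1, h2⟩ := mem_filter.mp hℓ
      exact ⟨⟨ℓ, hmem v ℓ h1⟩, mem_filter.mpr ⟨mem_univ _, h2, hcu _ v h1⟩, rfl⟩
    · intro i _
      rfl
  have hnet : MNet f c m' d := by
    refine ⟨hindep, fun i => hpos _ _ (hc i), ?_, ?_, ?_⟩
    · intro v
      have h1 := hsum v (fun _ => True)
      simp only [filter_true, true_and] at h1
      rw [hdeg v] at h1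
      rw [← h1]
    · intro i j hij v w
      obtain ⟨p, hp1, hp2⟩ := exists_meet i.1 j.1
      have hij' : i ≠ j := fun h => hij (by rw [h])
      have h1 := hbal (c i) (c j) hij i.1 (hc i) j.1 (hc j) p hp1 hp2 v w
      have h2 : ∀ k, k ∈ vecLine f i j ↔ On p k.1 := by
        intro k
        constructor
        · intro hk
          have := dot_eq_zero_of_mem hk (x := p.rep) (by rw [dotProduct_comm]; exact hp1)
            (by rw [dotProduct_comm]; exact hp2)
          rw [dotProduct_comm] at this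
          exact this
        · intro hk
          exact mem_of_dot_eq_zero (hindep i j hij') p.rep_nonzero
            (by rw [dotProduct_comm]; exact hp1) (by rw [dotProduct_comm]; exact hp2)
            (by rw [dotProduct_comm]; exact hk)
      have h3 : ∀ v, (vecLine f i j).filter (fun k => c k = v) =
          (univ : Finset {x // x ∈ L}).filter (fun i => On p i.1 ∧ c i = v) := by
        intro v
        ext k
        simp only [mem_filter, mem_univ, true_and, h2]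
      rw [h3, h3, hsum v (fun ℓ => On p ℓ), hsum w (fun ℓ => On p ℓ)]
      exact h1
    · by_contra hcon
      apply hspan
      obtain ⟨φ, hφ, hle⟩ := Submodule.exists_le_ker_of_lt_top _ (lt_top_iff_ne_top.mpr hcon)
      -- a common point of all lines
      set x : Fin 3 → ℂ := fun a => φ (Pi.single a 1) with hx
      have hφx : ∀ y, φ y = x ⬝ᵥ y := by
        intro y
        have h1 : y = ∑ a, y a • (Pi.single a (1 : ℂ) : Fin 3 → ℂ) := by
          ext b
          simp [Finset.sum_apply, Pi.single_apply]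
        conv_lhs => rw [h1]
        rw [map_sum, dotProduct]
        refine sum_congr rfl (fun a _ => ?_)
        rw [map_smul, smul_eq_mul, mul_comm]
      have hx0 : x ≠ 0 := by
        intro h0
        apply hφ
        apply LinearMap.ext
        intro y
        rw [hφx, h0, zero_dotProduct]
        rfl
      obtain ⟨a, ha⟩ := Projectivization.exists_smul_eq_mk_rep ℂ x hx0
      refine ⟨Projectivization.mk ℂ x hx0, fun v ℓ hℓ => ?_⟩
      unfold On
      rw [← ha, Units.smul_def, smul_dotProduct, ← hφx]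
      have h1 : φ ℓ.rep = 0 := by
        have : ℓ.rep ∈ Submodule.span ℂ (Set.range f) :=
          Submodule.subset_span ⟨⟨ℓ, hmem v ℓ hℓ⟩, rfl⟩
        exact hle this
      rw [h1, smul_zero]
  obtain ⟨⟨μ, hμ, hμ'⟩, g, σ, h1, h2⟩ := hnet.hesse
  refine ⟨⟨μ, hμ, fun v ℓ hℓ => hμ' ⟨ℓ, hmem v ℓ hℓ⟩⟩, g, σ, ?_, ?_⟩
  · intro v ℓ hℓ
    have h3 := h1 ⟨ℓ, hmem v ℓ hℓ⟩
    rw [hcu ⟨ℓ, hmem v ℓ hℓ⟩ v hℓ] at h3
    exact h3
  · intro v a
    obtain ⟨i, hi, t, ht, h3⟩ := h2 v a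
    exact ⟨i.1, hi ▸ hc i, t, ht, h3⟩

end Pool.Agent.H284_net
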